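import Pool.Agent.H60.MAD.Ext

/-!
# The extension step

`k + 1 = 2 d`, `d ≥ 3`.  A packing of the vertices `W` extends to the vertex `z ∉ W` if `z` has fewer than `d` neighbours in `W`, or
exactly `d` and one of them, `a`, has at most `3 d / 2 - 1` neighbours in `W`.
-/

set_option autoImplicit false

namespace Pool.Agent.H60.MAD

open Finset Function
open scoped Classical

variable {V : Type*}

/-- `c` is a packing on the vertices `W`: row `i` is the colouring `fun v => c v i` -/
structure Pk {k : ℕ} (G : SimpleGraph V) (L : V → Finset ℕ) (W : Finset V) (c : V → Fin k → ℕ) : Prop where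
  inj : ∀ u ∈ W, Injective (c u)
  mem : ∀ u ∈ W, ∀ i, c u i ∈ L u
  prop : ∀ u ∈ W, ∀ v ∈ W, G.Adj u v → ∀ i, c u i ≠ c v i

/-- neighbours of `v` in `W` -/
noncomputable def nb (G : SimpleGraph V) (W : Finset V) (v : V) : Finset V := W.filter (fun u => G.Adj v u)

lemma mem_nb {G : SimpleGraph V} {W : Finset V} {v u : V} : u ∈ nb G W v ↔ u ∈ W ∧ G.Adj v u := by
  unfold nb; rw [mem_filter]

lemma pk_insert {k : ℕ} {G : SimpleGraph V} {L : V → Finset ℕ} {W : Finset V} {c : V → Fin k → ℕ} (h : Pk G L W c) {z : V}
    (hz : z ∉ W) (hex : Ex c (nb G W z) (L z)) : ∃ c' : V → Fin k → ℕ, Pk G L (insert z W) c' := by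
  obtain ⟨w, hw1, hw2, hw3⟩ := hex
  have hne : ∀ u ∈ W, u ≠ z := fun u hu he => hz (he ▸ hu)
  refine ⟨update c z w, ?_, ?_, ?_⟩
  · intro u hu
    rcases mem_insert.1 hu with h1 | h1
    · rw [h1, update_self]; exact hw1
    · rw [update_of_ne (hne u h1)]; exact h.inj u h1
  · intro u hu i
    rcases mem_insert.1 hu with h1 | h1
    · rw [h1, update_self]; exact hw2 i
    · rw [update_of_ne (hne u h1)]; exact h.mem u h1 i
  · intro u hu v hv huv i
    rcases mem_insert.1 hu with h1 | h1
    · rcases mem_insert.1 hv with h2 | h2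
      · rw [h1, h2] at huv
        exact absurd huv (G.loopless.irrefl _)
      · rw [h1] at huv ⊢
        rw [update_self, update_of_ne (hne v h2)]
        exact hw3 v (mem_nb.2 ⟨h2, huv⟩) i
    · rcases mem_insert.1 hv with h2 | h2
      · rw [h2] at huv ⊢
        rw [update_self, update_of_ne (hne u h1)]
        exact (hw3 u (mem_nb.2 ⟨h1, huv.symm⟩) i).symm
      · rw [update_of_ne (hne u h1), update_of_ne (hne v h2)]
        exact h.prop u h1 v h2 huv i

/-- recolouring of the vertex `a` by a permutation of the rows -/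
lemma pk_perm {k : ℕ} {G : SimpleGraph V} {L : V → Finset ℕ} {W : Finset V} {c : V → Fin k → ℕ} (h : Pk G L W c) {a : V}
    (ha : a ∈ W) (σ : Equiv.Perm (Fin k)) (hσ : ∀ u ∈ nb G W a, ∀ i, c u i ≠ c a (σ i)) :
    Pk G L W (update c a (fun i => c a (σ i))) := by
  refine ⟨?_, ?_, ?_⟩
  · intro u hu
    by_cases hua : u = a
    · subst hua
      rw [update_self]
      exact (h.inj u hu).comp σ.injective
    · rw [update_of_ne hua]; exact h.inj u hu
  · intro u hu i
    by_cases hua : u = a
    · subst hua
      rw [update_self]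
      exact h.mem u hu _
    · rw [update_of_ne hua]; exact h.mem u hu i
  · intro u hu v hv huv i
    by_cases hua : u = a
    · subst hua
      by_cases hva : v = u
      · subst hva
        exact absurd huv (G.loopless.irrefl _)
      · rw [update_self, update_of_ne hva]
        exact (hσ v (mem_nb.2 ⟨hv, huv⟩) i).symm
    · by_cases hva : v = a
      · subst hva
        rw [update_self, update_of_ne hua]
        exact hσ u (mem_nb.2 ⟨hu, huv.symm⟩) i
      · rw [update_of_ne hua, update_of_ne hva]
        exact h.prop u hu v hv huv i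

theorem step {d k : ℕ} (hd : 3 ≤ d) (hk : k + 1 = 2 * d) {G : SimpleGraph V} {L : V → Finset ℕ} (hL : ∀ v, (L v).card = k)
    {W : Finset V} {c : V → Fin k → ℕ} (h : Pk G L W c) {z : V} (hz : z ∉ W)
    (hdeg : (nb G W z).card < d ∨ (nb G W z).card = d ∧ ∃ a ∈ nb G W z, 2 * ((nb G W a).card + 1) ≤ 3 * d) :
    ∃ c' : V → Fin k → ℕ, Pk G L (insert z W) c' := by
  have hQ : (nb G W z).card ≤ d := by rcases hdeg with h1 | h1 <;> omega
  have hinj : ∀ u ∈ nb G W z, Injective (c u) := fun u hu => h.inj u (mem_nb.1 hu).1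
  rcases ex_or_lb hk (nb G W z) hQ c hinj (L z) (hL z) with hex | ⟨S, D, hlb⟩
  · exact pk_insert h hz hex
  rcases hdeg with h1 | ⟨-, a, ha, hda⟩
  · exact absurd hlb.cQ (by omega)
  have haW := (mem_nb.1 ha).1
  -- the allowed relation at `a`
  let r : Fin k → Fin k → Prop := fun i j => ∀ u ∈ nb G W a, c u i ≠ c a j
  have hr : ∀ i, r i i := by
    intro i u hu
    exact h.prop u (mem_nb.1 hu).1 a haW (mem_nb.1 hu).2.symm i
  set m := k - (nb G W a).card with hm
  have hm2 : 2 ≤ m := by omega
  have hrow : ∀ i, m ≤ (univ.filter (fun j => r i j)).card := by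
    intro i
    have h2 : (univ.filter (fun j => ¬ r i j)).card ≤ (nb G W a).card := by
      have hch : ∀ j ∈ univ.filter (fun j => ¬ r i j), ∃ u, u ∈ nb G W a ∧ c u i = c a j := by
        intro j hj
        have := (mem_filter.1 hj).2
        simp only [r] at this
        push Not at this
        exact this
      have : Nonempty V := ⟨a⟩
      choose! g hg using hch
      apply card_le_card_of_injOn g (fun j hj => (hg j hj).1)
      intro j hj j' hj' he
      have e1 := (hg j hj).2
      have e2 := (hg j' hj').2
      rw [← he, e1] at e2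
      exact h.inj a haW e2
    have h3 := card_filter_add_card_filter_not (s := (univ : Finset (Fin k))) (fun j => r i j)
    rw [card_univ, Fintype.card_fin] at h3
    omega
  have hcol : ∀ j, m ≤ (univ.filter (fun i => r i j)).card := by
    intro j
    have h2 : (univ.filter (fun i => ¬ r i j)).card ≤ (nb G W a).card := by
      have hch : ∀ i ∈ univ.filter (fun i => ¬ r i j), ∃ u, u ∈ nb G W a ∧ c u i = c a j := by
        intro i hi
        have := (mem_filter.1 hi).2
        simp only [r] at this
        push Not at this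
        exact this
      have : Nonempty V := ⟨a⟩
      choose! g hg using hch
      apply card_le_card_of_injOn g (fun i hi => (hg i hi).1)
      intro i hi i' hi' he
      have e1 := (hg i hi).2
      have e2 := (hg i' hi').2
      rw [← he, ← e1] at e2
      exact (h.inj _ (mem_nb.1 (hg i hi).1).1 e2).symm
    have h3 := card_filter_add_card_filter_not (s := (univ : Finset (Fin k))) (fun i => r i j)
    rw [card_univ, Fintype.card_fin] at h3
    omega
  have hSne : S.Nonempty := by rw [← card_pos, hlb.cS]; omega
  obtain ⟨σ, hσ, i, hi, hne⟩ := rotate hm2 hr hrow hcol hSne (by rw [Fintype.card_fin, hlb.cS]; omega)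
  have h' := pk_perm h haW σ (fun u hu i => hσ i u hu)
  have hinj' : ∀ u ∈ nb G W z, Injective (update c a (fun i => c a (σ i)) u) :=
    fun u hu => h'.inj u (mem_nb.1 hu).1
  rcases ex_or_lb hk (nb G W z) hQ _ hinj' (L z) (hL z) with hex | ⟨S', D', hlb'⟩
  · exact pk_insert h' hz hex
  exfalso
  have h4 := lb_unique hd hk ha hinj (fun u _ hua => update_of_ne hua _ _) hlb hlb' i hi
  rw [update_self] at h4
  exact hne (h.inj a haW h4)

end Pool.Agent.H60.MAD
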