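import Pool.Agent.H60.MAD.Disch
import Pool.Agent.H60.MAD.Step

/-!
# Light configurations in planar graphs with few triangles at a vertex
-/

set_option autoImplicit false

namespace Pool.Agent.H60.MAD

open Finset Function
open scoped Classical

/-- Planar: every finite connected induced subgraph with at least two vertices has a rotation system with
`|V| - |E| + |F| = 2`. -/
def IsPlanar {V : Type*} (G : SimpleGraph V) : Prop :=
  ∀ S : Set V, S.Finite → (G.induce S).Connected → 2 ≤ S.ncard →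
    ∃ R : RotSys (G.induce S), S.ncard + R.faces = (G.induce S).edgeSet.ncard + 2

variable {V : Type*} {G : SimpleGraph V}

/-- a minimal closed part of `W` induces a connected graph -/
lemma exists_comp {W : Finset V} (hW : W.Nonempty) :
    ∃ C ⊆ W, (∀ v ∈ C, ∀ u ∈ W, G.Adj v u → u ∈ C) ∧ (G.induce (C : Set V)).Connected := by
  obtain ⟨C, hC, hmin⟩ := Finset.exists_min_image
    (W.powerset.filter (fun C => C.Nonempty ∧ ∀ v ∈ C, ∀ u ∈ W, G.Adj v u → u ∈ C)) Finset.card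
    ⟨W, mem_filter.2 ⟨mem_powerset.2 subset_rfl, hW, fun _ _ u hu _ => hu⟩⟩
  rw [mem_filter, mem_powerset] at hC
  obtain ⟨hCW, ⟨c0, hc0⟩, hcl⟩ := hC
  refine ⟨C, hCW, hcl, ?_⟩
  have : Nonempty (C : Set V) := ⟨⟨c0, hc0⟩⟩
  refine ⟨?_⟩
  intro a b
  let D : Finset V := C.filter (fun u => ∃ hu : u ∈ (C : Set V), (G.induce (C : Set V)).Reachable a ⟨u, hu⟩)
  have hD : D ∈ W.powerset.filter (fun C => C.Nonempty ∧ ∀ v ∈ C, ∀ u ∈ W, G.Adj v u → u ∈ C) := by
    rw [mem_filter, mem_powerset]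
    refine ⟨(filter_subset _ _).trans hCW, ⟨a.1, mem_filter.2 ⟨a.2, a.2, SimpleGraph.Reachable.refl _⟩⟩, ?_⟩
    intro v hv u hu huv
    rw [mem_filter] at hv
    obtain ⟨hvC, hv', hr⟩ := hv
    have huC : u ∈ C := hcl v hvC u hu huv
    refine mem_filter.2 ⟨huC, huC, hr.trans ?_⟩
    apply SimpleGraph.Adj.reachable
    exact huv
  have h1 := hmin D hD
  have h2 : D = C := eq_of_subset_of_card_le (filter_subset _ _) h1
  have h3 : b.1 ∈ D := by rw [h2]; exact b.2
  obtain ⟨_, _, hr⟩ := mem_filter.1 h3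
  exact hr

lemma degree_induce {C : Finset V} (v : (C : Set V)) [Fintype ((G.induce (C : Set V)).neighborSet v)] :
    (G.induce (C : Set V)).degree v = (nb G C v.1).card := by
  rw [← SimpleGraph.card_neighborFinset_eq_degree]
  refine card_bij (fun u _ => u.1) ?_ ?_ ?_
  · intro u hu
    rw [SimpleGraph.mem_neighborFinset] at hu
    exact mem_nb.2 ⟨u.2, hu⟩
  · intro u _ u' _ h
    exact Subtype.ext h
  · intro u hu
    rw [mem_nb] at hu
    refine ⟨⟨u, hu.1⟩, ?_, rfl⟩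
    rw [SimpleGraph.mem_neighborFinset]
    exact hu.2

lemma fan_induce {c : ℕ} (hF : FanLE G c) (S : Set V) : FanLE (G.induce S) c := by
  intro v x hx hadj
  exact hF v.1 (fun i => (x i).1) (fun i j h => hx (Subtype.ext h)) (fun i => hadj i)

/-- the general light configuration lemma: weights `g` on the vertices of `W` -/
theorem light {c : ℕ} (hP : IsPlanar G) (hF : FanLE G c) {W : Finset V} (hW : W.Nonempty)
    (hdeg : ∀ v ∈ W, 4 ≤ (nb G W v).card) (g : ℕ → ℕ) (hg4 : g 4 = 0)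
    (hg : ∀ D t : ℕ, 5 ≤ D → 4 * t ≤ c * D → g D * t + 24 ≤ 6 * D)
    (htri : ∀ u ∈ W, ∀ v ∈ W, ∀ w ∈ W, G.Adj u v → G.Adj v w → G.Adj w u →
      6 ≤ g (nb G W u).card + g (nb G W v).card + g (nb G W w).card) : False := by
  obtain ⟨C, hCW, hcl, hcon⟩ := exists_comp (G := G) hW
  have hnb : ∀ v ∈ C, nb G C v = nb G W v := by
    intro v hv
    ext u
    rw [mem_nb, mem_nb]
    constructor
    · rintro ⟨h1, h2⟩; exact ⟨hCW h1, h2⟩
    · rintro ⟨h1, h2⟩; exact ⟨hcl v hv u h1 h2, h2⟩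
  have hd : ∀ (v : (C : Set V)) [Fintype ((G.induce (C : Set V)).neighborSet v)],
      (G.induce (C : Set V)).degree v = (nb G W v.1).card := by
    intro v _
    rw [degree_induce, hnb v.1 v.2]
  have hne : (C : Set V).Nonempty := by
    obtain ⟨x⟩ := hcon.nonempty
    exact ⟨x.1, x.2⟩
  obtain ⟨v0, hv0⟩ := hne
  have h2 : 2 ≤ (C : Set V).ncard := by
    rw [Set.ncard_coe_finset]
    have h3 := hdeg v0 (hCW hv0)
    rw [← hnb v0 hv0] at h3
    have h4 : (nb G C v0).card ≤ C.card := card_le_card (filter_subset _ _)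
    omega
  obtain ⟨R, hR⟩ := hP (C : Set V) C.finite_toSet hcon h2
  refine disch R (fun v => by rw [hd]; exact hdeg v.1 (hCW v.2)) ?_ (fun v => g (nb G W v.1).card) ?_ ?_
  · have e1 : ∀ i : Fintype (G.induce (C : Set V)).edgeSet,
        (@SimpleGraph.edgeFinset _ (G.induce (C : Set V)) i).card = (G.induce (C : Set V)).edgeSet.ncard := by
      intro i
      rw [← SimpleGraph.coe_edgeFinset, Set.ncard_coe_finset]
    have e2 : ∀ i : Fintype (C : Set V), @Fintype.card (C : Set V) i = (C : Set V).ncard := by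
      intro i
      rw [← Nat.card_eq_fintype_card, Nat.card_coe_set_eq]
    rw [e1 _, e2 _]
    omega
  · intro v
    have h5 : 4 ≤ (nb G W v.1).card := hdeg v.1 (hCW v.2)
    rw [hd]
    rcases Nat.eq_or_lt_of_le h5 with h6 | h6
    · show g (nb G W v.1).card * R.tn v + 24 ≤ 6 * (nb G W v.1).card
      rw [← h6, hg4]
      omega
    · refine hg _ _ h6 ?_
      have h7 := tn_le R (fan_induce hF _) (v := v) (by rw [hd]; exact h6)
      rw [hd] at h7
      exact h7
  · intro a b c hab hbc hca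
    exact htri a.1 (hCW a.2) b.1 (hCW b.2) c.1 (hCW c.2) hab hbc hca

/-- configuration for lists of seven colours -/
theorem light7 (hP : IsPlanar G) (hF : FanLE G 3) {W : Finset V} (hW : W.Nonempty) :
    ∃ z ∈ W, (nb G W z).card < 4 ∨ (nb G W z).card = 4 ∧ ∃ a ∈ nb G W z, (nb G W a).card ≤ 6 := by
  by_contra hcon
  push Not at hcon
  refine light hP hF hW (fun v hv => (hcon v hv).1) (fun D => if D = 4 then 0 else if D = 5 then 2 else 3) (by simp) ?_ ?_
  · intro D t h1 h2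
    by_cases h5 : D = 5
    · subst h5
      norm_num
      omega
    · rw [if_neg (show ¬ D = 4 by omega), if_neg h5]
      omega
  · intro u hu v hv w hw huv hvw hwu
    have k1 := (hcon u hu).1
    have k2 := (hcon v hv).1
    have k3 := (hcon w hw).1
    have a1 : (nb G W u).card = 4 → 7 ≤ (nb G W v).card ∧ 7 ≤ (nb G W w).card := fun h =>
      ⟨(hcon u hu).2 h v (mem_nb.2 ⟨hv, huv⟩), (hcon u hu).2 h w (mem_nb.2 ⟨hw, hwu.symm⟩)⟩
    have a2 : (nb G W v).card = 4 → 7 ≤ (nb G W u).card ∧ 7 ≤ (nb G W w).card := fun h =>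
      ⟨(hcon v hv).2 h u (mem_nb.2 ⟨hu, huv.symm⟩), (hcon v hv).2 h w (mem_nb.2 ⟨hw, hvw⟩)⟩
    have a3 : (nb G W w).card = 4 → 7 ≤ (nb G W u).card ∧ 7 ≤ (nb G W v).card := fun h =>
      ⟨(hcon w hw).2 h u (mem_nb.2 ⟨hu, hwu⟩), (hcon w hw).2 h v (mem_nb.2 ⟨hv, hvw.symm⟩)⟩
    split_ifs <;> omega

/-- configuration for lists of six colours -/
theorem light6 (hP : IsPlanar G) (hF : FanLE G 2) {W : Finset V} (hW : W.Nonempty) :
    ∃ z ∈ W, (nb G W z).card < 4 ∨ (nb G W z).card = 4 ∧ ∃ a ∈ nb G W z, (nb G W a).card = 4 := by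
  by_contra hcon
  push Not at hcon
  refine light hP hF hW (fun v hv => (hcon v hv).1) (fun D => if D = 4 then 0 else 3) (by simp) ?_ ?_
  · intro D t h1 h2
    rw [if_neg (show ¬ D = 4 by omega)]
    omega
  · intro u hu v hv w hw huv hvw hwu
    have k1 := (hcon u hu).1
    have k2 := (hcon v hv).1
    have k3 := (hcon w hw).1
    have a1 : (nb G W u).card = 4 → (nb G W v).card ≠ 4 ∧ (nb G W w).card ≠ 4 := fun h =>
      ⟨(hcon u hu).2 h v (mem_nb.2 ⟨hv, huv⟩), (hcon u hu).2 h w (mem_nb.2 ⟨hw, hwu.symm⟩)⟩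
    have a2 : (nb G W v).card = 4 → (nb G W u).card ≠ 4 ∧ (nb G W w).card ≠ 4 := fun h =>
      ⟨(hcon v hv).2 h u (mem_nb.2 ⟨hu, huv.symm⟩), (hcon v hv).2 h w (mem_nb.2 ⟨hw, hvw⟩)⟩
    have a3 : (nb G W w).card = 4 → (nb G W u).card ≠ 4 ∧ (nb G W v).card ≠ 4 := fun h =>
      ⟨(hcon w hw).2 h u (mem_nb.2 ⟨hu, hwu⟩), (hcon w hw).2 h v (mem_nb.2 ⟨hv, hvw.symm⟩)⟩
    split_ifs <;> omega

end Pool.Agent.H60.MAD
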