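import Pool.Agent.H60.MAD.Six

/-!
# The list packing number, and the two theorems about planar graphs
-/

set_option autoImplicit false

namespace Pool.Agent.H60.MAD

open Finset Function
open scoped Classical

/-- `c` is an `L`-packing of `G`: `k` proper `L`-colourings which are pairwise disjoint. -/
def IsPacking {V : Type*} {k : ℕ} (G : SimpleGraph V) (L : V → Finset ℕ) (c : Fin k → V → ℕ) : Prop :=
  (∀ i v, c i v ∈ L v) ∧ (∀ i u v, G.Adj u v → c i u ≠ c i v) ∧ ∀ i j v, i ≠ j → c i v ≠ c j v

/-- Every assignment of lists of exactly `k` colours to the vertices of `G` admits a packing. -/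
def Packable {V : Type*} (G : SimpleGraph V) (k : ℕ) : Prop :=
  ∀ L : V → Finset ℕ, (∀ v, (L v).card = k) → ∃ c : Fin k → V → ℕ, IsPacking G L c

/-- The list packing number: the least `k ≥ 1` such that every assignment of lists of exactly `k` colours admits a packing. -/
noncomputable def listPackingNumber {V : Type*} (G : SimpleGraph V) : ℕ := sInf {k | 1 ≤ k ∧ Packable G k}

lemma packing_of_pk {V : Type*} {k : ℕ} {G : SimpleGraph V} {L : V → Finset ℕ} {W : Finset V} (hW : ∀ v, v ∈ W)
    {c : V → Fin k → ℕ} (h : Pk G L W c) : IsPacking G L (fun i v => c v i) :=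
  ⟨fun i v => h.mem v (hW v) i, fun i u v huv => h.prop u (hW u) v (hW v) huv i,
    fun i j v hij he => hij (h.inj v (hW v) he)⟩

/-- No vertex is joined to all vertices of a path on five vertices. -/
def NoFan {V : Type*} (G : SimpleGraph V) : Prop :=
  ∀ (v : V) (x : Fin 5 → V), Injective x → (∀ i, G.Adj v (x i)) → ∃ i : Fin 4, ¬ G.Adj (x i.castSucc) (x i.succ)

lemma NoFan.fanLE {V : Type*} {G : SimpleGraph V} (h : NoFan G) : FanLE G 3 := by
  intro v x hx hadj
  obtain ⟨i, hi⟩ := h v x hx hadj
  have h1 : univ.filter (fun i : Fin 4 => G.Adj (x i.castSucc) (x i.succ)) ⊆ univ.erase i := by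
    intro j hj
    rw [mem_filter] at hj
    rw [mem_erase]
    exact ⟨fun e => hi (e ▸ hj.2), mem_univ _⟩
  have h2 := card_le_card h1
  rw [card_erase_of_mem (mem_univ _), card_univ, Fintype.card_fin] at h2
  exact h2

theorem packable7 {V : Type*} [Finite V] {G : SimpleGraph V} (hP : IsPlanar G) (hF : NoFan G) : Packable G 7 := by
  intro L hL
  have := Fintype.ofFinite V
  obtain ⟨c, hc⟩ := exists_pk7 hP hF.fanLE hL _ univ rfl
  exact ⟨_, packing_of_pk (fun v => mem_univ v) hc⟩

theorem packable6 {V : Type*} [Finite V] {G : SimpleGraph V} (hP : IsPlanar G) (hF : FanLE G 2) : Packable G 6 := by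
  intro L hL
  have := Fintype.ofFinite V
  obtain ⟨c, hc⟩ := exists_pk6 hP hF hL _ univ le_rfl
  exact ⟨_, packing_of_pk (fun v => mem_univ v) hc⟩

/-- No two triangles share an edge. -/
def NoAdjacentTriangles {V : Type*} (G : SimpleGraph V) : Prop :=
  ∀ a b c d, G.Adj a b → G.Adj a c → G.Adj b c → G.Adj a d → G.Adj b d → c = d

/-- Every vertex lies in at most two triangles. -/
def TwoTriangles {V : Type*} (G : SimpleGraph V) : Prop :=
  ∀ v : V, ∀ T : Finset (Finset V), (∀ t ∈ T, v ∈ t ∧ G.IsNClique 3 t) → T.card ≤ 2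

lemma fanLE_of_noAdj {V : Type*} {G : SimpleGraph V} (h : NoAdjacentTriangles G) : FanLE G 2 := by
  intro v x hx hadj
  have hne : ∀ i j k : Fin 5, i ≠ k → G.Adj (x i) (x j) → ¬ G.Adj (x j) (x k) := by
    intro i j k hik h1 h2
    exact hik (hx (h v (x j) (x i) (x k) (hadj j) (hadj i) h1.symm (hadj k) h2))
  have h01 := hne 0 1 2 (by decide)
  have h12 := hne 1 2 3 (by decide)
  have h23 := hne 2 3 4 (by decide)
  by_contra hcon
  push Not at hcon
  rw [card_filter] at hcon
  simp only [Fin.sum_univ_four] at hcon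
  have e0 : (0 : Fin 4).castSucc = (0 : Fin 5) := rfl
  have e1 : (1 : Fin 4).castSucc = (1 : Fin 5) := rfl
  have e2 : (2 : Fin 4).castSucc = (2 : Fin 5) := rfl
  have e3 : (3 : Fin 4).castSucc = (3 : Fin 5) := rfl
  have f0 : (0 : Fin 4).succ = (1 : Fin 5) := rfl
  have f1 : (1 : Fin 4).succ = (2 : Fin 5) := rfl
  have f2 : (2 : Fin 4).succ = (3 : Fin 5) := rfl
  have f3 : (3 : Fin 4).succ = (4 : Fin 5) := rfl
  rw [e0, e1, e2, e3, f0, f1, f2, f3] at hcon
  by_cases a0 : G.Adj (x 0) (x 1)
  · have b1 := h01 a0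
    rw [if_pos a0, if_neg b1] at hcon
    by_cases a2 : G.Adj (x 2) (x 3)
    · have b3 := h23 a2
      rw [if_pos a2, if_neg b3] at hcon
      omega
    · rw [if_neg a2] at hcon
      split_ifs at hcon <;> omega
  · rw [if_neg a0] at hcon
    by_cases a1 : G.Adj (x 1) (x 2)
    · have b2 := h12 a1
      rw [if_pos a1, if_neg b2] at hcon
      split_ifs at hcon <;> omega
    · rw [if_neg a1] at hcon
      split_ifs at hcon <;> omega

lemma fanLE_of_two {V : Type*} {G : SimpleGraph V} (h : TwoTriangles G) : FanLE G 2 := by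
  intro v x hx hadj
  let f : Fin 4 → Finset V := fun i => {v, x i.castSucc, x i.succ}
  have hinj : Injective f := by
    intro i j hij
    have h1 : x i.castSucc ∈ f j := by rw [← hij]; simp [f]
    have h2 : x i.succ ∈ f j := by rw [← hij]; simp [f]
    simp only [f, mem_insert, mem_singleton] at h1 h2
    have hv : ∀ k, x k ≠ v := fun k he => (hadj k).ne he.symm
    rcases h1 with h1 | h1 | h1
    · exact absurd h1 (hv _)
    · exact Fin.castSucc_injective _ (hx h1)
    · rcases h2 with h2 | h2 | h2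
      · exact absurd h2 (hv _)
      · have k1 := congrArg Fin.val (hx h1)
        have k2 := congrArg Fin.val (hx h2)
        simp at k1 k2
        omega
      · exact Fin.succ_injective _ (hx h2)
  have h3 := h v ((univ.filter (fun i : Fin 4 => G.Adj (x i.castSucc) (x i.succ))).image f) (by
    intro t ht
    obtain ⟨i, hi, rfl⟩ := mem_image.1 ht
    refine ⟨by simp [f], ?_⟩
    rw [SimpleGraph.is3Clique_iff]
    exact ⟨v, x i.castSucc, x i.succ, hadj _, hadj _, (mem_filter.1 hi).2, rfl⟩)
  rw [card_image_of_injective _ hinj] at h3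
  exact h3

end Pool.Agent.H60.MAD
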