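import Pool.Agent.H60.MAD.Emb

/-!
# Discharging in plane graphs with few triangles at a vertex
-/

set_option autoImplicit false

namespace Pool.Agent.H60.MAD

open Finset Function
open scoped Classical

/-- Among the four consecutive pairs of any five different neighbours of a vertex at most `c` are adjacent. -/
def FanLE {V : Type*} (G : SimpleGraph V) (c : ℕ) : Prop :=
  ∀ (v : V) (x : Fin 5 → V), Injective x → (∀ i, G.Adj v (x i)) →
    (univ.filter (fun i : Fin 4 => G.Adj (x i.castSucc) (x i.succ))).card ≤ c

variable {U : Type*} {H : SimpleGraph U} [Fintype U]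

/-- the number of triangular angles at `v` -/
noncomputable def RotSys.tn (R : RotSys H) (v : U) : ℕ := ((univ : Finset H.Dart).filter (fun e => e.snd = v ∧ R.tri e)).card

/-- the third side of a triangular face -/
lemma tri_adj (R : RotSys H) {d : H.Dart} (h : R.tri d.symm) : H.Adj d.snd (R.rot d).snd := by
  have h1 : R.face d.symm = R.rot d := by rw [face_apply, SimpleGraph.Dart.symm_symm]
  have h2 : R.face (R.face (R.rot d)) = d.symm := by
    have := h
    unfold RotSys.tri at this
    rw [h1] at this
    exact this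
  have h3 := face_fst R (R.face (R.rot d))
  rw [h2] at h3
  have h4 := face_fst R (R.rot d)
  have h5 := (R.face (R.rot d)).adj
  have h6 : H.Adj (R.rot d).snd (d.symm).fst := by
    rw [h3, ← h4]
    exact h5
  exact h6.symm

lemma window (R : RotSys H) {c : ℕ} (hF : FanLE H c) {d : H.Dart} (hd : 5 ≤ H.degree d.fst) :
    (univ.filter (fun j : Fin 4 => R.tri ((R.rot ^ (j : ℕ)) d).symm)).card ≤ c := by
  let x : Fin 5 → U := fun i => ((R.rot ^ (i : ℕ)) d).snd
  have hadj : ∀ i, H.Adj d.fst (x i) := by
    intro i
    have := ((R.rot ^ (i : ℕ)) d).adj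
    rw [pow_fst] at this
    exact this
  have key : ∀ i j : Fin 5, i < j → x i ≠ x j := by
    intro i j hij he
    have h1 : (R.rot ^ (i : ℕ)) d = (R.rot ^ (j : ℕ)) d := by
      apply SimpleGraph.Dart.ext
      apply Prod.ext
      · show ((R.rot ^ (i : ℕ)) d).fst = ((R.rot ^ (j : ℕ)) d).fst
        rw [pow_fst, pow_fst]
      · exact he
    have h2 : (R.rot ^ ((j : ℕ) - i)) d = d := by
      apply (R.rot ^ (i : ℕ)).injective
      rw [← Equiv.Perm.mul_apply, ← pow_add, Nat.add_sub_cancel' (by exact le_of_lt hij), h1]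
    have h3 := degree_le_of_pow R (m := (j : ℕ) - i) (Nat.sub_pos_of_lt hij) h2
    omega
  have hinj : Injective x := by
    intro i j he
    rcases lt_trichotomy i j with h | h | h
    · exact absurd he (key i j h)
    · exact h
    · exact absurd he.symm (key j i h)
  refine le_trans (card_le_card ?_) (hF d.fst x hinj hadj)
  intro j hj
  rw [mem_filter] at hj ⊢
  refine ⟨mem_univ _, ?_⟩
  have h1 := tri_adj R hj.2
  have h2 : R.rot ((R.rot ^ (j : ℕ)) d) = (R.rot ^ ((j : ℕ) + 1)) d := by rw [pow_succ', Equiv.Perm.mul_apply]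
  rw [h2] at h1
  exact h1

lemma tn_shift (R : RotSys H) (v : U) (j : ℕ) :
    ((univ : Finset H.Dart).filter (fun d => d.fst = v ∧ R.tri ((R.rot ^ j) d).symm)).card = R.tn v := by
  unfold RotSys.tn
  refine card_bij (fun d _ => ((R.rot ^ j) d).symm) ?_ ?_ ?_
  · intro d hd
    rw [mem_filter] at hd ⊢
    refine ⟨mem_univ _, ?_, hd.2.2⟩
    show ((R.rot ^ j) d).fst = v
    rw [pow_fst]
    exact hd.2.1
  · intro d _ d' _ he
    exact (R.rot ^ j).injective (SimpleGraph.Dart.symm_involutive.injective he)
  · intro e he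
    rw [mem_filter] at he
    refine ⟨(R.rot ^ j).symm e.symm, ?_, ?_⟩
    · rw [mem_filter]
      refine ⟨mem_univ _, ?_, ?_⟩
      · rw [← pow_fst R j, Equiv.apply_symm_apply]
        exact he.2.1
      · rw [Equiv.apply_symm_apply, SimpleGraph.Dart.symm_symm]
        exact he.2.2
    · rw [Equiv.apply_symm_apply, SimpleGraph.Dart.symm_symm]

lemma tn_le (R : RotSys H) {c : ℕ} (hF : FanLE H c) {v : U} (hv : 5 ≤ H.degree v) : 4 * R.tn v ≤ c * H.degree v := by
  have h1 : ∑ j : Fin 4, ((univ : Finset H.Dart).filter (fun d => d.fst = v ∧ R.tri ((R.rot ^ (j : ℕ)) d).symm)).card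
      = 4 * R.tn v := by
    rw [sum_congr rfl (fun (j : Fin 4) _ => tn_shift R v (j : ℕ)), sum_const, card_univ, Fintype.card_fin, smul_eq_mul]
  rw [← h1]
  have h2 : ∑ j : Fin 4, ((univ : Finset H.Dart).filter (fun d => d.fst = v ∧ R.tri ((R.rot ^ (j : ℕ)) d).symm)).card =
      ∑ d ∈ (univ : Finset H.Dart).filter (fun d => d.fst = v),
        (univ.filter (fun j : Fin 4 => R.tri ((R.rot ^ (j : ℕ)) d).symm)).card := by
    simp only [card_filter]
    rw [sum_comm, sum_filter]
    apply sum_congr rfl
    intro d _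
    by_cases hd : d.fst = v
    · simp [hd]
    · simp [hd]
  rw [h2, ← H.dart_fst_fiber_card_eq_degree v, mul_comm, ← smul_eq_mul, ← sum_const]
  apply sum_le_sum
  intro d hd
  apply window R hF
  rw [(mem_filter.1 hd).2]
  exact hv

/-- abstract discharging -/
theorem disch (R : RotSys H) (hdeg : ∀ v, 4 ≤ H.degree v) (heul : H.edgeFinset.card + 1 ≤ Fintype.card U + R.faces)
    (g : U → ℕ) (hg : ∀ v, g v * R.tn v + 24 ≤ 6 * H.degree v)
    (htri : ∀ a b c, H.Adj a b → H.Adj b c → H.Adj c a → 6 ≤ g a + g b + g c) : False := by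
  set T := ((univ : Finset H.Dart).filter (fun d => R.tri d)).card with hT
  have h1 := faces_le R (fun v => le_trans (by norm_num) (hdeg v))
  rw [← hT] at h1
  have h2 : Fintype.card H.Dart = ∑ v, H.degree v := H.dart_card_eq_sum_degrees
  have h3 : Fintype.card H.Dart = 2 * H.edgeFinset.card := H.dart_card_eq_twice_card_edges
  -- the sum of the weights over the triangular darts
  have h4 : ∑ v, g v * R.tn v = ∑ e ∈ (univ : Finset H.Dart).filter (fun d => R.tri d), g e.snd := by
    unfold RotSys.tn
    simp only [card_filter, mul_sum]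
    rw [sum_comm, sum_filter]
    apply sum_congr rfl
    intro e _
    by_cases he : R.tri e
    · simp [he]
    · simp [he]
  have hshift : ∀ f : H.Dart → ℕ, ∑ e ∈ (univ : Finset H.Dart).filter (fun d => R.tri d), f (R.face e) =
      ∑ e ∈ (univ : Finset H.Dart).filter (fun d => R.tri d), f e := by
    intro f
    refine sum_bij (fun e _ => R.face e) ?_ ?_ ?_ ?_
    · intro e he
      rw [mem_filter] at he ⊢
      exact ⟨mem_univ _, tri_face R he.2⟩
    · intro e _ e' _ h
      exact R.face.injective h
    · intro e he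
      rw [mem_filter] at he
      refine ⟨R.face.symm e, ?_, ?_⟩
      · rw [mem_filter]
        refine ⟨mem_univ _, ?_⟩
        rw [← tri_face_iff, Equiv.apply_symm_apply]
        exact he.2
      · exact Equiv.apply_symm_apply _ _
    · intro e _
      rfl
  have h5 : 6 * T ≤ ∑ e ∈ (univ : Finset H.Dart).filter (fun d => R.tri d),
      (g e.snd + g (R.face e).snd + g (R.face (R.face e)).snd) := by
    rw [hT, mul_comm, ← smul_eq_mul, ← sum_const]
    apply sum_le_sum
    intro e he
    have ht := (mem_filter.1 he).2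
    apply htri
    · have := (R.face e).adj
      rw [face_fst] at this
      exact this
    · have := (R.face (R.face e)).adj
      rw [face_fst] at this
      exact this
    · have h6 := e.adj
      have h7 := face_fst R (R.face (R.face e))
      rw [ht] at h7
      rw [h7] at h6
      exact h6
  rw [sum_add_distrib, sum_add_distrib, hshift (fun e => g e.snd), hshift (fun e => g (R.face e).snd),
    hshift (fun e => g e.snd), ← h4] at h5
  have h6 : ∑ v, g v * R.tn v + 24 * Fintype.card U ≤ 6 * ∑ v, H.degree v := by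
    have := sum_le_sum (fun v (_ : v ∈ (univ : Finset U)) => hg v)
    rw [sum_add_distrib, sum_const, card_univ, smul_eq_mul, ← mul_sum] at this
    omega
  omega

end Pool.Agent.H60.MAD
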