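import Mathlib

/-!
# Rotation systems, Euler's formula, and discharging

A rotation system of a graph is a permutation `rot` of the darts which keeps the start of a dart and permutes the darts at
every vertex cyclically.  The faces are the orbits of `d ↦ rot (d.symm)`.
-/

set_option autoImplicit false

namespace Pool.Agent.H60.MAD

open Finset Function
open scoped Classical

/-- rotation system of a graph -/
structure RotSys {V : Type*} (G : SimpleGraph V) where
  /-- next dart in the rotation at its start -/
  rot : Equiv.Perm G.Dart
  fst_rot : ∀ d, (rot d).fst = d.fst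
  cyc : ∀ d d' : G.Dart, d.fst = d'.fst → rot.SameCycle d d'

/-- reversal of darts -/
def rev {V : Type*} (G : SimpleGraph V) : Equiv.Perm G.Dart :=
  Function.Involutive.toPerm SimpleGraph.Dart.symm SimpleGraph.Dart.symm_involutive

/-- the permutation whose orbits are the faces -/
def RotSys.face {V : Type*} {G : SimpleGraph V} (R : RotSys G) : Equiv.Perm G.Dart := (rev G).trans R.rot

/-- the number of faces -/
noncomputable def RotSys.faces {V : Type*} {G : SimpleGraph V} (R : RotSys G) : ℕ :=
  Nat.card (Quotient (Equiv.Perm.SameCycle.setoid R.face))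

variable {U : Type*} {H : SimpleGraph U}

lemma face_apply (R : RotSys H) (d : H.Dart) : R.face d = R.rot d.symm := rfl

lemma face_fst (R : RotSys H) (d : H.Dart) : (R.face d).fst = d.snd := by
  rw [face_apply, R.fst_rot]
  rfl

lemma face_ne (R : RotSys H) (d : H.Dart) : R.face d ≠ d := by
  intro h
  have := face_fst R d
  rw [h] at this
  exact d.fst_ne_snd this

lemma pow_fst (R : RotSys H) (n : ℕ) (d : H.Dart) : ((R.rot ^ n) d).fst = d.fst := by
  induction n with
  | zero => rfl
  | succ n ih => rw [pow_succ', Equiv.Perm.mul_apply, R.fst_rot, ih]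

variable [Fintype U]

/-- a rotation orbit which closes after `m` steps bounds the degree -/
lemma degree_le_of_pow (R : RotSys H) {m : ℕ} (hm : 0 < m) {d : H.Dart} (h : (R.rot ^ m) d = d) : H.degree d.fst ≤ m := by
  rw [← H.dart_fst_fiber_card_eq_degree]
  have hsub : (univ : Finset H.Dart).filter (fun d' => d'.fst = d.fst) ⊆ (range m).image (fun n => (R.rot ^ n) d) := by
    intro d' hd'
    have h1 : R.rot.SameCycle d d' := R.cyc d d' (mem_filter.1 hd').2.symm
    obtain ⟨n, hn⟩ := h1.exists_nat_pow_eq
    rw [mem_image]
    refine ⟨n % m, mem_range.2 (Nat.mod_lt _ hm), ?_⟩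
    have h2 : ∀ q : ℕ, (R.rot ^ (m * q)) d = d := by
      intro q
      induction q with
      | zero => rfl
      | succ q ih => rw [Nat.mul_succ, pow_add, Equiv.Perm.mul_apply, h, ih]
    have h3 : (R.rot ^ n) d = (R.rot ^ (n % m)) d := by
      conv_lhs => rw [← Nat.mod_add_div n m, pow_add, Equiv.Perm.mul_apply, h2]
    rw [← h3, hn]
  calc ((univ : Finset H.Dart).filter (fun d' => d'.fst = d.fst)).card ≤ ((range m).image (fun n => (R.rot ^ n) d)).card :=
        card_le_card hsub
    _ ≤ (range m).card := card_image_le
    _ = m := card_range m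

lemma face2_ne (R : RotSys H) (hdeg : ∀ v, 2 ≤ H.degree v) (d : H.Dart) : R.face (R.face d) ≠ d := by
  intro h
  have h1 := face_fst R d
  have h2 := face_fst R (R.face d)
  rw [h] at h2
  have h3 : R.face d = d.symm := by
    apply SimpleGraph.Dart.ext
    apply Prod.ext
    · exact h1
    · exact h2.symm
  rw [face_apply] at h3
  have h4 : (R.rot ^ 1) d.symm = d.symm := by rw [pow_one]; exact h3
  have h5 := degree_le_of_pow R one_pos h4
  have h6 := hdeg d.symm.fst
  omega

/-- the face of the dart is a triangle -/
def RotSys.tri (R : RotSys H) (d : H.Dart) : Prop := R.face (R.face (R.face d)) = d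

lemma tri_face (R : RotSys H) {d : H.Dart} (h : R.tri d) : R.tri (R.face d) := by
  unfold RotSys.tri at h ⊢
  rw [h]

lemma tri_face_iff (R : RotSys H) (d : H.Dart) : R.tri (R.face d) ↔ R.tri d := by
  unfold RotSys.tri
  exact R.face.injective.eq_iff

/-- the number of faces with triangular faces counted with the weight `4 / 3` -/
lemma faces_le (R : RotSys H) (hdeg : ∀ v, 2 ≤ H.degree v) :
    12 * R.faces ≤ 3 * Fintype.card H.Dart + ((univ : Finset H.Dart).filter (fun d => R.tri d)).card := by
  let w : H.Dart → ℕ := fun d => 3 + (if R.tri d then 1 else 0)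
  have hw : ∑ d, w d = 3 * Fintype.card H.Dart + ((univ : Finset H.Dart).filter (fun d => R.tri d)).card := by
    simp only [w]
    rw [sum_add_distrib, sum_const, card_univ, smul_eq_mul, mul_comm, card_filter]
  rw [← hw]
  let Q := Quotient (Equiv.Perm.SameCycle.setoid R.face)
  let π : H.Dart → Q := fun d => Quotient.mk _ d
  have hQ : R.faces = Fintype.card Q := by
    unfold RotSys.faces
    rw [Nat.card_eq_fintype_card]
  rw [hQ, ← sum_fiberwise (s := (univ : Finset H.Dart)) (g := π) (f := w), ← card_univ (α := Q), mul_comm, ← smul_eq_mul,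
    ← sum_const]
  apply sum_le_sum
  intro q _
  obtain ⟨d, hd⟩ := Quotient.exists_rep q
  have hmem : ∀ n : ℕ, (R.face ^ n) d ∈ (univ : Finset H.Dart).filter (fun e => π e = q) := by
    intro n
    rw [mem_filter]
    refine ⟨mem_univ _, ?_⟩
    rw [← hd]
    apply Quotient.sound
    have hsc : R.face.SameCycle d ((R.face ^ n) d) := ⟨(n : ℤ), by rw [zpow_natCast]⟩
    exact hsc.symm
  have e1 : R.face d ∈ (univ : Finset H.Dart).filter (fun e => π e = q) := hmem 1
  have e0 : d ∈ (univ : Finset H.Dart).filter (fun e => π e = q) := hmem 0
  have e2 : R.face (R.face d) ∈ (univ : Finset H.Dart).filter (fun e => π e = q) := hmem 2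
  have e3 : R.face (R.face (R.face d)) ∈ (univ : Finset H.Dart).filter (fun e => π e = q) := hmem 3
  have n01 := face_ne R d
  have n12 : R.face (R.face d) ≠ R.face d := face_ne R _
  have n02 := face2_ne R hdeg d
  by_cases ht : R.tri d
  · have hsub : ({d, R.face d, R.face (R.face d)} : Finset H.Dart) ⊆ (univ : Finset H.Dart).filter (fun e => π e = q) := by
      intro e he
      simp only [mem_insert, mem_singleton] at he
      rcases he with rfl | rfl | rfl
      · exact e0
      · exact e1
      · exact e2
    calc 12 = ∑ e ∈ ({d, R.face d, R.face (R.face d)} : Finset H.Dart), w e := by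
          rw [sum_insert (by simp [n01.symm, n02.symm]), sum_insert (by simp [n12.symm]), sum_singleton]
          simp only [w]
          rw [if_pos ht, if_pos (tri_face R ht), if_pos (tri_face R (tri_face R ht))]
          norm_num
      _ ≤ ∑ e ∈ (univ : Finset H.Dart).filter (fun e => π e = q), w e := sum_le_sum_of_subset hsub
  · have n03 : R.face (R.face (R.face d)) ≠ d := ht
    have n13 : R.face (R.face (R.face d)) ≠ R.face d := face2_ne R hdeg _
    have n23 : R.face (R.face (R.face d)) ≠ R.face (R.face d) := face_ne R _
    have hsub : ({d, R.face d, R.face (R.face d), R.face (R.face (R.face d))} : Finset H.Dart) ⊆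
        (univ : Finset H.Dart).filter (fun e => π e = q) := by
      intro e he
      simp only [mem_insert, mem_singleton] at he
      rcases he with rfl | rfl | rfl | rfl
      · exact e0
      · exact e1
      · exact e2
      · exact e3
    calc 12 = ∑ e ∈ ({d, R.face d, R.face (R.face d), R.face (R.face (R.face d))} : Finset H.Dart), 3 := by
          rw [sum_const, card_insert_of_notMem (by simp [n01.symm, n02.symm, n03.symm]),
            card_insert_of_notMem (by simp [n12.symm, n13.symm]), card_insert_of_notMem (by simp [n23.symm]),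
            card_singleton]
          rfl
      _ ≤ ∑ e ∈ ({d, R.face d, R.face (R.face d), R.face (R.face (R.face d))} : Finset H.Dart), w e :=
          sum_le_sum (fun e _ => by simp only [w]; omega)
      _ ≤ ∑ e ∈ (univ : Finset H.Dart).filter (fun e => π e = q), w e := sum_le_sum_of_subset hsub

end Pool.Agent.H60.MAD
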