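import Pool.Agent.H60.MAD.Rot

/-!
# Latin blocks

`k + 1 = 2 d`.  A vertex with at most `d` coloured neighbours can be coloured unless its neighbours carry a Latin block;
a Latin block is destroyed by changing the colours of one neighbour on the rows of the block.
-/

set_option autoImplicit false

namespace Pool.Agent.H60.MAD

open Finset Function

variable {V : Type*} [DecidableEq V]

/-- Latin block: on the rows `S` all vertices of `Q` use the colours `D`, and in each row of `S` all colours of `D` are used. -/
structure LB {k : ℕ} (d : ℕ) (c : V → Fin k → ℕ) (Q : Finset V) (S : Finset (Fin k)) (D : Finset ℕ) : Prop where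
  cS : S.card = d
  cD : D.card = d
  cQ : Q.card = d
  row : ∀ i ∈ S, Q.image (fun u => c u i) = D
  col : ∀ u ∈ Q, S.image (c u) = D

/-- `w` is an extension over `Q` with the list `L` -/
def Ex {k : ℕ} (c : V → Fin k → ℕ) (Q : Finset V) (L : Finset ℕ) : Prop :=
  ∃ w : Fin k → ℕ, Injective w ∧ (∀ i, w i ∈ L) ∧ ∀ u ∈ Q, ∀ i, w i ≠ c u i

lemma ex_or_lb {d k : ℕ} (hk : k + 1 = 2 * d) (Q : Finset V) (hQ : Q.card ≤ d)
    (c : V → Fin k → ℕ) (hinj : ∀ u ∈ Q, Injective (c u)) (L : Finset ℕ) (hL : L.card = k) :
    Ex c Q L ∨ ∃ S D, LB d c Q S D := by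
  classical
  by_cases hlb : ∃ S D, LB d c Q S D
  · exact Or.inr hlb
  left
  let N : Fin k → Finset ℕ := fun i => L \ Q.image (fun u => c u i)
  have key : ∃ f : Fin k → ℕ, Injective f ∧ ∀ i, f i ∈ N i := by
    rw [← Finset.all_card_le_biUnion_card_iff_exists_injective]
    intro s
    by_contra hs
    push Not at hs
    have hsne : s.Nonempty := by
      rw [Finset.nonempty_iff_ne_empty]
      rintro rfl
      simp at hs
    have hcardN : ∀ i, d ≤ (N i).card + 1 := by
      intro i
      have h1 : L.card - (Q.image (fun u => c u i)).card ≤ (N i).card :=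
        Finset.le_card_sdiff _ _
      have h2 : (Q.image (fun u => c u i)).card ≤ Q.card := Finset.card_image_le
      omega
    obtain ⟨i0, hi0⟩ := hsne
    have hbi : (N i0).card ≤ (s.biUnion N).card :=
      Finset.card_le_card (Finset.subset_biUnion_of_mem N hi0)
    have hst : d ≤ s.card := by
      have := hcardN i0
      omega
    have hsk : s.card ≤ k := by
      have := Finset.card_le_univ s
      simpa using this
    set D := L \ s.biUnion N with hD
    have hDcard : k + 1 ≤ D.card + s.card := by
      have h1 : L.card - (s.biUnion N).card ≤ D.card := Finset.le_card_sdiff _ _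
      omega
    have hDN : ∀ i ∈ s, D ⊆ Q.image (fun u => c u i) := by
      intro i hi x hx
      rw [hD, Finset.mem_sdiff] at hx
      by_contra hcon
      apply hx.2
      rw [Finset.mem_biUnion]
      exact ⟨i, hi, Finset.mem_sdiff.2 ⟨hx.1, hcon⟩⟩
    have hDne : D.Nonempty := by
      rw [← Finset.card_pos]; omega
    obtain ⟨d0, hd0⟩ := hDne
    have hsQ : s.card ≤ Q.card := by
      have hch : ∀ i ∈ s, ∃ u, u ∈ Q ∧ c u i = d0 := by
        intro i hi
        have := hDN i hi hd0
        rw [Finset.mem_image] at this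
        exact this
      have : Nonempty V := ⟨(hch i0 hi0).choose⟩
      choose! g hg using hch
      apply Finset.card_le_card_of_injOn g (fun i hi => (hg i hi).1)
      intro i hi j hj hij
      have h1 := (hg i hi).2
      have h2 := (hg j hj).2
      rw [← hij] at h2
      exact hinj _ (hg i hi).1 (h1.trans h2.symm)
    have hsc : s.card = d := by omega
    have hQc : Q.card = d := by omega
    have hDc : D.card = d := by
      have h1 : D.card ≤ (Q.image (fun u => c u i0)).card := Finset.card_le_card (hDN i0 hi0)
      have h2 : (Q.image (fun u => c u i0)).card ≤ Q.card := Finset.card_image_le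
      omega
    have hrow : ∀ i ∈ s, Q.image (fun u => c u i) = D := by
      intro i hi
      symm
      apply Finset.eq_of_subset_of_card_le (hDN i hi)
      have h2 : (Q.image (fun u => c u i)).card ≤ Q.card := Finset.card_image_le
      omega
    apply hlb
    refine ⟨s, D, hsc, hDc, hQc, hrow, ?_⟩
    intro u hu
    apply Finset.eq_of_subset_of_card_le
    · intro x hx
      rw [Finset.mem_image] at hx
      obtain ⟨i, hi, rfl⟩ := hx
      rw [← hrow i hi]
      exact Finset.mem_image_of_mem (fun u => c u i) hu
    · rw [Finset.card_image_of_injective _ (hinj u hu)]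
      omega
  obtain ⟨f, hf, hfN⟩ := key
  refine ⟨f, hf, fun i => (Finset.mem_sdiff.1 (hfN i)).1, ?_⟩
  intro u hu i h
  apply (Finset.mem_sdiff.1 (hfN i)).2
  rw [Finset.mem_image]
  exact ⟨u, hu, h.symm⟩

/-- In a row of the block different vertices have different colours. -/
lemma LB.inj {k d : ℕ} {c : V → Fin k → ℕ} {Q : Finset V} {S : Finset (Fin k)} {D : Finset ℕ} (h : LB d c Q S D)
    {i : Fin k} (hi : i ∈ S) {u v : V} (hu : u ∈ Q) (hv : v ∈ Q) (he : c u i = c v i) : u = v := by
  have h1 : (Q.image (fun u => c u i)).card = Q.card := by rw [h.row i hi, h.cD, h.cQ]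
  exact Finset.card_image_iff.1 h1 hu hv he

/-- Two colourings which differ only at `a`: both have a block, then they agree at `a` on the rows of the first block. -/
lemma lb_unique {k d : ℕ} (hd : 3 ≤ d) (hk : k + 1 = 2 * d) {c c' : V → Fin k → ℕ} {Q : Finset V} {a : V} (ha : a ∈ Q)
    (hinj : ∀ u ∈ Q, Injective (c u)) (hag : ∀ u ∈ Q, u ≠ a → c' u = c u)
    {S S' : Finset (Fin k)} {D D' : Finset ℕ} (h : LB d c Q S D) (h' : LB d c' Q S' D') :
    ∀ i ∈ S, c' a i = c a i := by
  classical
  have hT : ∀ u ∈ Q.erase a, (S ∩ S').image (c u) = D ∩ D' := by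
    intro u hu
    rw [mem_erase] at hu
    rw [← h.col u hu.2, ← h'.col u hu.2, hag u hu.2 hu.1, image_inter _ _ (hinj u hu.2)]
  have hTc : (Q.erase a).card + 1 = d := by rw [card_erase_of_mem ha, h.cQ]; omega
  have hTne : 1 < (Q.erase a).card := by omega
  obtain ⟨u1, hu1, u2, hu2, hne⟩ := Finset.one_lt_card.1 hTne
  have hu1' := mem_erase.1 hu1
  have hu2' := mem_erase.1 hu2
  have hcard : (S ∩ S').card = (D ∩ D').card := by
    rw [← hT u1 hu1, card_image_of_injective _ (hinj u1 hu1'.2)]
  have hAne : (S ∩ S').Nonempty := by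
    rw [← card_pos]
    have h1 := card_union_add_card_inter S S'
    have h2 : (S ∪ S').card ≤ k := by
      have := card_le_univ (S ∪ S')
      simpa using this
    have := h.cS
    have := h'.cS
    omega
  obtain ⟨i0, hi0⟩ := hAne
  have hi0' := mem_inter.1 hi0
  have hsub : (Q.erase a).image (fun u => c u i0) ⊆ D ∩ D' := by
    intro x hx
    obtain ⟨u, hu, rfl⟩ := mem_image.1 hx
    rw [← hT u hu]
    exact mem_image_of_mem _ hi0
  have hDD : (Q.erase a).card ≤ (D ∩ D').card := by
    have h1 : ((Q.erase a).image (fun u => c u i0)).card = (Q.erase a).card := by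
      apply card_image_of_injOn
      intro u hu v hv he
      exact h.inj hi0'.1 (mem_of_mem_erase hu) (mem_of_mem_erase hv) he
    rw [← h1]
    exact card_le_card hsub
  have hle : (S ∩ S').card ≤ d := by rw [← h.cS]; exact card_le_card inter_subset_left
  by_cases hfull : (S ∩ S').card = d
  · have e1 : S ∩ S' = S := eq_of_subset_of_card_le inter_subset_left (by rw [h.cS]; omega)
    have e2 : D ∩ D' = D := eq_of_subset_of_card_le inter_subset_left (by rw [h.cD]; omega)
    have e3 : D ∩ D' = D' := eq_of_subset_of_card_le inter_subset_right (by rw [h'.cD]; omega)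
    have eD : D = D' := by rw [← e2]; exact e3
    intro i hi
    have hiS' : i ∈ S' := by
      have : i ∈ S ∩ S' := by rw [e1]; exact hi
      exact (mem_inter.1 this).2
    have hmem : c' a i ∈ D := by
      rw [eD, ← h'.row i hiS']
      exact mem_image_of_mem (fun u => c' u i) ha
    rw [← h.row i hi, mem_image] at hmem
    obtain ⟨u, hu, he⟩ := hmem
    by_cases hua : u = a
    · rw [hua] at he
      exact he.symm
    · exfalso
      have h1 : c' u i = c' a i := by rw [hag u hu hua]; exact he
      exact hua (h'.inj hiS' hu ha h1)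
  · -- one row of `S` outside `S'`
    exfalso
    have hS1 : (S \ (S ∩ S')).card = 1 := by
      rw [card_sdiff_of_subset inter_subset_left, h.cS]; omega
    have hD1 : (D \ (D ∩ D')).card = 1 := by
      rw [card_sdiff_of_subset inter_subset_left, h.cD]; omega
    obtain ⟨s0, hs0⟩ := card_eq_one.1 hS1
    have hs0' : s0 ∈ S \ (S ∩ S') := by rw [hs0]; simp
    rw [mem_sdiff] at hs0'
    obtain ⟨d0, hd0⟩ := card_eq_one.1 hD1
    have hval : ∀ u ∈ Q.erase a, c u s0 = d0 := by
      intro u hu
      have h1 : c u s0 ∈ D \ (D ∩ D') := by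
        rw [mem_sdiff]
        refine ⟨?_, ?_⟩
        · rw [← h.col u (mem_of_mem_erase hu)]
          exact mem_image_of_mem _ hs0'.1
        · rw [← hT u hu, mem_image]
          rintro ⟨x, hx, he⟩
          exact hs0'.2 (hinj u (mem_of_mem_erase hu) he ▸ hx)
      rw [hd0] at h1
      simpa using h1
    exact hne (h.inj hs0'.1 hu1'.2 hu2'.2 ((hval u1 hu1).trans (hval u2 hu2).symm))

end Pool.Agent.H60.MAD
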