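import Mathlib

/-!
# Perfect matchings in relations on six elements with minimum degree three, minus a partial matching of a family
-/

set_option autoImplicit false

namespace Pool.Agent.H60.MAD

open Finset Function
open scoped Classical

/-- Hall's theorem with a cut -/
lemma hall_cut {r r' : Fin 6 → Fin 6 → Prop} {a b : Fin 6 → ℕ}
    (hrow : ∀ i, 3 ≤ (univ.filter (fun j => r i j)).card) (hcol : ∀ j, 3 ≤ (univ.filter (fun i => r i j)).card)
    (ha : ∀ i, (univ.filter (fun j => r i j ∧ ¬ r' i j)).card ≤ a i)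
    (hb : ∀ j, (univ.filter (fun i => r i j ∧ ¬ r' i j)).card ≤ b j)
    (hno : ¬ ∃ σ : Equiv.Perm (Fin 6), ∀ i, r' i (σ i)) :
    ∃ S U : Finset (Fin 6), (∀ i ∈ S, ∀ j ∈ U, ¬ r' i j) ∧ 7 ≤ S.card + U.card ∧
      3 * S.card ≤ S.card * (6 - U.card) + ∑ i ∈ S, a i ∧ 3 * U.card ≤ U.card * (6 - S.card) + ∑ j ∈ U, b j := by
  have h1 : ¬ ∀ A : Finset (Fin 6), A.card ≤ (univ.filter (fun b => ∃ a ∈ A, r' a b)).card := by
    intro h
    obtain ⟨f, hf, hf'⟩ := (Fintype.all_card_le_filter_rel_iff_exists_injective r').1 (fun A => by convert h A)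
    exact hno ⟨Equiv.ofBijective f (Finite.injective_iff_bijective.1 hf), hf'⟩
  push Not at h1
  obtain ⟨S, hS⟩ := h1
  set N := univ.filter (fun b => ∃ a ∈ S, r' a b) with hN
  have hcut : ∀ i ∈ S, ∀ j ∈ Nᶜ, ¬ r' i j := by
    intro i hi j hj hr
    rw [mem_compl, hN, mem_filter] at hj
    exact hj ⟨mem_univ _, i, hi, hr⟩
  have hcard : Nᶜ.card = 6 - N.card := by rw [card_compl, Fintype.card_fin]
  have hN6 : N.card ≤ 6 := by
    have := card_le_univ N
    rwa [Fintype.card_fin] at this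
  have hS6 : S.card ≤ 6 := by
    have := card_le_univ S
    rwa [Fintype.card_fin] at this
  refine ⟨S, Nᶜ, hcut, by omega, ?_, ?_⟩
  · have h2 : ∀ i ∈ S, 3 ≤ (6 - Nᶜ.card) + a i := by
      intro i hi
      have h3 : univ.filter (fun j => r i j) ⊆ N ∪ univ.filter (fun j => r i j ∧ ¬ r' i j) := by
        intro j hj
        rw [mem_filter] at hj
        by_cases h : r' i j
        · exact mem_union_left _ (by rw [hN, mem_filter]; exact ⟨mem_univ _, i, hi, h⟩)
        · exact mem_union_right _ (mem_filter.2 ⟨mem_univ _, hj.2, h⟩)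
      have h4 := (card_le_card h3).trans (card_union_le _ _)
      have h5 := hrow i
      have h6 := ha i
      omega
    have h3 := sum_le_sum h2
    rw [sum_add_distrib, sum_const, sum_const, smul_eq_mul, smul_eq_mul] at h3
    omega
  · have h2 : ∀ j ∈ Nᶜ, 3 ≤ (6 - S.card) + b j := by
      intro j hj
      have h3 : univ.filter (fun i => r i j) ⊆ Sᶜ ∪ univ.filter (fun i => r i j ∧ ¬ r' i j) := by
        intro i hi
        rw [mem_filter] at hi
        rw [mem_union, mem_filter, mem_compl]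
        by_cases h : i ∈ S
        · exact Or.inr ⟨mem_univ _, hi.2, hcut i h j hj⟩
        · exact Or.inl h
      have h4 := (card_le_card h3).trans (card_union_le _ _)
      have h5 := hcol j
      have h6 := hb j
      rw [card_compl, Fintype.card_fin] at h4
      omega
    have h3 := sum_le_sum h2
    rw [sum_add_distrib, sum_const, sum_const, smul_eq_mul, smul_eq_mul] at h3
    omega

/-- a perfect matching exists -/
lemma hall_three {r : Fin 6 → Fin 6 → Prop} (hrow : ∀ i, 3 ≤ (univ.filter (fun j => r i j)).card)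
    (hcol : ∀ j, 3 ≤ (univ.filter (fun i => r i j)).card) : ∃ σ : Equiv.Perm (Fin 6), ∀ i, r i (σ i) := by
  by_contra hno
  obtain ⟨S, U, -, h1, h2, h3⟩ := hall_cut (a := fun _ => 0) (b := fun _ => 0) hrow hcol (by simp) (by simp) hno
  rw [sum_const_zero] at h2 h3
  have hS6 : S.card ≤ 6 := by
    have := card_le_univ S
    rwa [Fintype.card_fin] at this
  have hU6 : U.card ≤ 6 := by
    have := card_le_univ U
    rwa [Fintype.card_fin] at this
  generalize S.card = s at *
  generalize U.card = u at *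
  interval_cases s <;> omega

/-- a perfect matching which avoids two cells exists -/
lemma hall_two {r : Fin 6 → Fin 6 → Prop} (hrow : ∀ i, 3 ≤ (univ.filter (fun j => r i j)).card)
    (hcol : ∀ j, 3 ≤ (univ.filter (fun i => r i j)).card) (i1 j1 i2 j2 : Fin 6) :
    ∃ σ : Equiv.Perm (Fin 6), (∀ i, r i (σ i)) ∧ σ i1 ≠ j1 ∧ σ i2 ≠ j2 := by
  have hmain : ∃ σ : Equiv.Perm (Fin 6), ∀ i, (r i (σ i) ∧ ¬ (i = i1 ∧ σ i = j1) ∧ ¬ (i = i2 ∧ σ i = j2)) := by
    by_contra hno
    have ha : ∀ i, (univ.filter (fun j => r i j ∧ ¬ (r i j ∧ ¬ (i = i1 ∧ j = j1) ∧ ¬ (i = i2 ∧ j = j2)))).card ≤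
        (if i = i1 then 1 else 0) + (if i = i2 then 1 else 0) := by
      intro i
      have h4 : univ.filter (fun j => r i j ∧ ¬ (r i j ∧ ¬ (i = i1 ∧ j = j1) ∧ ¬ (i = i2 ∧ j = j2))) ⊆
          (if i = i1 then {j1} else ∅) ∪ (if i = i2 then {j2} else ∅) := by
        intro j hj
        rw [mem_filter] at hj
        rw [mem_union]
        have h5 : (i = i1 ∧ j = j1) ∨ (i = i2 ∧ j = j2) := by tauto
        rcases h5 with ⟨h6, h7⟩ | ⟨h6, h7⟩
        · left; rw [if_pos h6, mem_singleton]; exact h7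
        · right; rw [if_pos h6, mem_singleton]; exact h7
      refine (card_le_card h4).trans ((card_union_le _ _).trans ?_)
      apply Nat.add_le_add
      · split_ifs <;> simp
      · split_ifs <;> simp
    have hb : ∀ j, (univ.filter (fun i => r i j ∧ ¬ (r i j ∧ ¬ (i = i1 ∧ j = j1) ∧ ¬ (i = i2 ∧ j = j2)))).card ≤
        (if j = j1 then 1 else 0) + (if j = j2 then 1 else 0) := by
      intro j
      have h4 : univ.filter (fun i => r i j ∧ ¬ (r i j ∧ ¬ (i = i1 ∧ j = j1) ∧ ¬ (i = i2 ∧ j = j2))) ⊆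
          (if j = j1 then {i1} else ∅) ∪ (if j = j2 then {i2} else ∅) := by
        intro i hi
        rw [mem_filter] at hi
        rw [mem_union]
        have h5 : (i = i1 ∧ j = j1) ∨ (i = i2 ∧ j = j2) := by tauto
        rcases h5 with ⟨h6, h7⟩ | ⟨h6, h7⟩
        · left; rw [if_pos h7, mem_singleton]; exact h6
        · right; rw [if_pos h7, mem_singleton]; exact h6
      refine (card_le_card h4).trans ((card_union_le _ _).trans ?_)
      apply Nat.add_le_add
      · split_ifs <;> simp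
      · split_ifs <;> simp
    obtain ⟨S, U, -, h1, h2, h3⟩ := hall_cut (r := r) (r' := fun i j => r i j ∧ ¬ (i = i1 ∧ j = j1) ∧ ¬ (i = i2 ∧ j = j2))
      (a := fun i => (if i = i1 then 1 else 0) + (if i = i2 then 1 else 0))
      (b := fun j => (if j = j1 then 1 else 0) + (if j = j2 then 1 else 0)) hrow hcol (fun i => by convert ha i) (fun j => by convert hb j) hno
    have e1 : ∑ i ∈ S, ((if i = i1 then 1 else 0) + (if i = i2 then 1 else 0)) ≤ 2 := by
      rw [sum_add_distrib, sum_ite_eq', sum_ite_eq']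
      split_ifs <;> norm_num
    have e2 : ∑ j ∈ U, ((if j = j1 then 1 else 0) + (if j = j2 then 1 else 0)) ≤ 2 := by
      rw [sum_add_distrib, sum_ite_eq', sum_ite_eq']
      split_ifs <;> norm_num
    have hS6 : S.card ≤ 6 := by
      have := card_le_univ S
      rwa [Fintype.card_fin] at this
    have hU6 : U.card ≤ 6 := by
      have := card_le_univ U
      rwa [Fintype.card_fin] at this
    have h2' := h2.trans (Nat.add_le_add_left e1 _)
    have h3' := h3.trans (Nat.add_le_add_left e2 _)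
    clear h2 h3 e1 e2
    generalize S.card = s at *
    generalize U.card = u at *
    interval_cases s <;> omega
  obtain ⟨σ, hσ⟩ := hmain
  exact ⟨σ, fun i => (hσ i).1, fun h => (hσ i1).2.1 ⟨rfl, h⟩, fun h => (hσ i2).2.2 ⟨rfl, h⟩⟩

/-- a partial matching -/
structure PM (κ : Fin 6 → Fin 6 → Prop) : Prop where
  row : ∀ i j j', κ i j → κ i j' → j = j'
  col : ∀ i i' j, κ i j → κ i' j → i = i'

lemma PM.tr {κ : Fin 6 → Fin 6 → Prop} (h : PM κ) : PM (fun i j => κ j i) :=
  ⟨fun i j j' h1 h2 => h.col j j' i h1 h2, fun i i' j h1 h2 => h.row j i i' h1 h2⟩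

/-- the obstruction for a perfect matching in `r` minus `κ`, of the row type -/
structure CutR (r κ : Fin 6 → Fin 6 → Prop) (S U : Finset (Fin 6)) : Prop where
  cS : S.card = 3
  cU : U.card = 4
  cut : ∀ i ∈ S, ∀ j ∈ U, r i j → κ i j

lemma cut_or {r κ : Fin 6 → Fin 6 → Prop} (hrow : ∀ i, 3 ≤ (univ.filter (fun j => r i j)).card)
    (hcol : ∀ j, 3 ≤ (univ.filter (fun i => r i j)).card) (hκ : PM κ)
    (hno : ¬ ∃ σ : Equiv.Perm (Fin 6), ∀ i, r i (σ i) ∧ ¬ κ i (σ i)) :
    (∃ S U, CutR r κ S U) ∨ ∃ S U, CutR (fun i j => r j i) (fun i j => κ j i) U S := by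
  have ha : ∀ i, (univ.filter (fun j => r i j ∧ ¬ (r i j ∧ ¬ κ i j))).card ≤ 1 := by
    intro i
    rw [card_le_one]
    intro j hj j' hj'
    rw [mem_filter] at hj hj'
    exact hκ.row i j j' (by tauto) (by tauto)
  have hb : ∀ j, (univ.filter (fun i => r i j ∧ ¬ (r i j ∧ ¬ κ i j))).card ≤ 1 := by
    intro j
    rw [card_le_one]
    intro i hi i' hi'
    rw [mem_filter] at hi hi'
    exact hκ.col i i' j (by tauto) (by tauto)
  obtain ⟨S, U, h0, h1, h2, h3⟩ := hall_cut (r := r) (r' := fun i j => r i j ∧ ¬ κ i j) (a := fun _ => 1)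
    (b := fun _ => 1) hrow hcol (fun i => by convert ha i) (fun j => by convert hb j) hno
  rw [sum_const, smul_eq_mul, mul_one] at h2 h3
  have hS6 : S.card ≤ 6 := by
    have := card_le_univ S
    rwa [Fintype.card_fin] at this
  have hU6 : U.card ≤ 6 := by
    have := card_le_univ U
    rwa [Fintype.card_fin] at this
  have hcut : ∀ i ∈ S, ∀ j ∈ U, r i j → κ i j := by
    intro i hi j hj hr
    by_contra hk
    exact h0 i hi j hj ⟨hr, hk⟩
  have h4 : (3 ≤ S.card ∧ 4 ≤ U.card) ∨ (4 ≤ S.card ∧ 3 ≤ U.card) := by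
    clear hcut h0
    generalize S.card = s at *
    generalize U.card = u at *
    interval_cases s <;> omega
  rcases h4 with ⟨h4, h5⟩ | ⟨h4, h5⟩
  · left
    obtain ⟨S', hS', cS'⟩ := exists_subset_card_eq h4
    obtain ⟨U', hU', cU'⟩ := exists_subset_card_eq h5
    exact ⟨S', U', cS', cU', fun i hi j hj => hcut i (hS' hi) j (hU' hj)⟩
  · right
    obtain ⟨S', hS', cS'⟩ := exists_subset_card_eq h4
    obtain ⟨U', hU', cU'⟩ := exists_subset_card_eq h5
    exact ⟨S', U', cU', cS', fun i hi j hj => hcut j (hS' hj) i (hU' hi)⟩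

/-- the rows of a row cut -/
lemma CutR.facts {r κ : Fin 6 → Fin 6 → Prop} {S U : Finset (Fin 6)} (h : CutR r κ S U)
    (hrow : ∀ i, 3 ≤ (univ.filter (fun j => r i j)).card) (hκ : PM κ) {i : Fin 6} (hi : i ∈ S) :
    (∀ j, j ∉ U → r i j) ∧ (∃ b ∈ U, r i b ∧ κ i b) ∧ (univ.filter (fun j => r i j)).card = 3 := by
  have h1 : (univ.filter (fun j => r i j ∧ j ∈ U)).card ≤ 1 := by
    rw [card_le_one]
    intro j hj j' hj'
    rw [mem_filter] at hj hj'
    exact hκ.row i j j' (h.cut i hi j hj.2.2 hj.2.1) (h.cut i hi j' hj'.2.2 hj'.2.1)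
  have h2 : Uᶜ.card = 2 := by rw [card_compl, Fintype.card_fin, h.cU]
  have hsub : univ.filter (fun j => r i j ∧ j ∉ U) ⊆ Uᶜ := by
    intro j hj
    rw [mem_filter] at hj
    rw [mem_compl]
    exact hj.2.2
  have h3 : (univ.filter (fun j => r i j ∧ j ∉ U)).card ≤ 2 := h2 ▸ card_le_card hsub
  have h4 : (univ.filter (fun j => r i j)).card =
      (univ.filter (fun j => r i j ∧ j ∈ U)).card + (univ.filter (fun j => r i j ∧ j ∉ U)).card := by
    rw [← card_filter_add_card_filter_not (s := univ.filter (fun j => r i j)) (fun j => j ∈ U), filter_filter,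
      filter_filter]
  have h5 := hrow i
  refine ⟨?_, ?_, by omega⟩
  · have h6 : univ.filter (fun j => r i j ∧ j ∉ U) = Uᶜ := eq_of_subset_of_card_le hsub (by omega)
    intro j hj
    have h7 : j ∈ univ.filter (fun j => r i j ∧ j ∉ U) := by rw [h6, mem_compl]; exact hj
    exact (mem_filter.1 h7).2.1
  · have h6 : 0 < (univ.filter (fun j => r i j ∧ j ∈ U)).card := by omega
    obtain ⟨b, hb⟩ := card_pos.1 h6
    rw [mem_filter] at hb
    exact ⟨b, hb.2.2, hb.2.1, h.cut i hi b hb.2.2 hb.2.1⟩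

/-- two row cuts -/
lemma no_RR {r κ κ1 : Fin 6 → Fin 6 → Prop} {S U S1 U1 : Finset (Fin 6)}
    (hrow : ∀ i, 3 ≤ (univ.filter (fun j => r i j)).card) (hcol : ∀ j, 3 ≤ (univ.filter (fun i => r i j)).card)
    (hκ : PM κ) (hκ1 : PM κ1) (h : CutR r κ S U) (h1 : CutR r κ1 S1 U1) {x1 x2 : Fin 6} (hx1 : x1 ∈ S) (hx2 : x2 ∈ S)
    (hx : x1 ≠ x2) (hb1 : ∀ b, κ x1 b → ¬ κ1 x1 b) (hb2 : ∀ b, κ x2 b → ¬ κ1 x2 b) : False := by
  have hS6 : ∀ S : Finset (Fin 6), S.card ≤ 6 := fun S => by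
    have := card_le_univ S
    rwa [Fintype.card_fin] at this
  have hSS := card_union_add_card_inter S S1
  have hUU := card_union_add_card_inter U U1
  rw [h.cS, h1.cS] at hSS
  rw [h.cU, h1.cU] at hUU
  have hSS6 := hS6 (S ∪ S1)
  have hUU6 := hS6 (U ∪ U1)
  rcases (S ∩ S1).eq_empty_or_nonempty with he | ⟨i0, hi0⟩
  · -- all rows are covered
    rw [he, card_empty] at hSS
    have hall : S ∪ S1 = univ := by
      rw [← card_eq_iff_eq_univ, Fintype.card_fin]
      omega
    have h2 : 0 < (U ∩ U1).card := by omega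
    obtain ⟨j, hj⟩ := card_pos.1 h2
    rw [mem_inter] at hj
    have h3 : univ.filter (fun i => r i j) ⊆ univ.filter (fun i => κ i j) ∪ univ.filter (fun i => κ1 i j) := by
      intro i hi
      rw [mem_filter] at hi
      rw [mem_union, mem_filter, mem_filter]
      have h4 : i ∈ S ∪ S1 := by rw [hall]; exact mem_univ _
      rcases mem_union.1 h4 with h5 | h5
      · exact Or.inl ⟨mem_univ _, h.cut i h5 j hj.1 hi.2⟩
      · exact Or.inr ⟨mem_univ _, h1.cut i h5 j hj.2 hi.2⟩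
    have h4 := (card_le_card h3).trans (card_union_le _ _)
    have h5 : (univ.filter (fun i => κ i j)).card ≤ 1 := by
      rw [card_le_one]
      intro i hi i' hi'
      exact hκ.col i i' j (mem_filter.1 hi).2 (mem_filter.1 hi').2
    have h6 : (univ.filter (fun i => κ1 i j)).card ≤ 1 := by
      rw [card_le_one]
      intro i hi i' hi'
      exact hκ1.col i i' j (mem_filter.1 hi).2 (mem_filter.1 hi').2
    have h7 := hcol j
    omega
  · -- the intersection of the column sets is big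
    rw [mem_inter] at hi0
    obtain ⟨f1, -, f3⟩ := h.facts hrow hκ hi0.1
    obtain ⟨g1, -, g3⟩ := h1.facts hrow hκ1 hi0.2
    have hY : 3 ≤ (U ∩ U1).card := by
      have h2 : (U ∩ U1)ᶜ ⊆ univ.filter (fun j => r i0 j) := by
        intro j hj
        rw [mem_compl, mem_inter, not_and_or] at hj
        rw [mem_filter]
        rcases hj with hj | hj
        · exact ⟨mem_univ _, f1 j hj⟩
        · exact ⟨mem_univ _, g1 j hj⟩
      have h3 := card_le_card h2
      rw [card_compl, Fintype.card_fin, f3] at h3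
      omega
    have hX : (S ∩ S1).card ≤ 1 := by
      by_cases hU : U = U1
      · subst hU
        have k1 : ∀ x, x ∈ S → (∀ b, κ x b → ¬ κ1 x b) → x ∉ S1 := by
          intro x hxS hb hxS1
          obtain ⟨-, ⟨b, hbU, hrb, hκb⟩, -⟩ := h.facts hrow hκ hxS
          exact hb b hκb (h1.cut x hxS1 b hbU hrb)
        have k2 := k1 x1 hx1 hb1
        have k3 := k1 x2 hx2 hb2
        have k4 : S ∩ S1 ⊆ (S.erase x1).erase x2 := by
          intro y hy
          rw [mem_inter] at hy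
          rw [mem_erase, mem_erase]
          exact ⟨fun e => k3 (e ▸ hy.2), fun e => k2 (e ▸ hy.2), hy.1⟩
        have k5 := card_le_card k4
        rw [card_erase_of_mem (mem_erase.2 ⟨hx.symm, hx2⟩), card_erase_of_mem hx1, h.cS] at k5
        omega
      · obtain ⟨b, hbU, hbU1⟩ : ∃ b ∈ U, b ∉ U1 := by
          by_contra hcon
          push Not at hcon
          exact hU (eq_of_subset_of_card_le hcon (by rw [h.cU, h1.cU]))
        rw [card_le_one]
        intro i hi i' hi'
        rw [mem_inter] at hi hi'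
        have e1 := (h1.facts hrow hκ1 hi.2).1 b hbU1
        have e2 := (h1.facts hrow hκ1 hi'.2).1 b hbU1
        exact hκ.col i i' b (h.cut i hi.1 b hbU e1) (h.cut i' hi'.1 b hbU e2)
    -- count the cells in the columns of the intersection
    have hcount : ∑ j ∈ U ∩ U1, (univ.filter (fun i => r i j)).card =
        ∑ i : Fin 6, ((U ∩ U1).filter (fun j => r i j)).card := by
      simp only [card_filter]
      rw [sum_comm]
    have hlow : 3 * (U ∩ U1).card ≤ ∑ j ∈ U ∩ U1, (univ.filter (fun i => r i j)).card := by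
      rw [mul_comm, ← smul_eq_mul, ← sum_const]
      exact sum_le_sum (fun j _ => hcol j)
    have hup : ∀ i : Fin 6, ((U ∩ U1).filter (fun j => r i j)).card ≤
        1 + (if i ∈ (S ∪ S1)ᶜ then (U ∩ U1).card - 1 else 0) := by
      intro i
      by_cases hi : i ∈ S ∪ S1
      · rw [if_neg (by rw [mem_compl]; exact fun h => h hi)]
        rw [add_zero, card_le_one]
        intro j hj j' hj'
        rw [mem_filter, mem_inter] at hj hj'
        rcases mem_union.1 hi with h5 | h5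
        · exact hκ.row i j j' (h.cut i h5 j hj.1.1 hj.2) (h.cut i h5 j' hj'.1.1 hj'.2)
        · exact hκ1.row i j j' (h1.cut i h5 j hj.1.2 hj.2) (h1.cut i h5 j' hj'.1.2 hj'.2)
      · rw [if_pos (by rw [mem_compl]; exact hi)]
        have := card_filter_le (U ∩ U1) (fun j => r i j)
        omega
    have hup2 := sum_le_sum (fun i (_ : i ∈ (univ : Finset (Fin 6))) => hup i)
    rw [sum_add_distrib, sum_const, card_univ, Fintype.card_fin, smul_eq_mul, sum_ite_mem, univ_inter, sum_const,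
      smul_eq_mul, card_compl, Fintype.card_fin] at hup2
    have hYle := hS6 (U ∩ U1)
    have hXX : (S ∪ S1).card = 5 ∨ (S ∪ S1).card = 6 := by omega
    rcases hXX with h5 | h5
    · rw [h5] at hup2
      omega
    · rw [h5] at hup2
      omega

/-- a row cut and a column cut -/
lemma no_RC {r κ κ1 : Fin 6 → Fin 6 → Prop} {S U S1 U1 : Finset (Fin 6)}
    (hrow : ∀ i, 3 ≤ (univ.filter (fun j => r i j)).card) (hcol : ∀ j, 3 ≤ (univ.filter (fun i => r i j)).card)
    (hκ : PM κ) (hκ1 : PM κ1) (h : CutR r κ S U) (h1 : CutR (fun i j => r j i) (fun i j => κ1 j i) U1 S1)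
    {x1 x2 : Fin 6} (hx1 : x1 ∈ S) (hx2 : x2 ∈ S)
    (hx : x1 ≠ x2) (hb1 : ∀ b, κ x1 b → ¬ κ1 x1 b) (hb2 : ∀ b, κ x2 b → ¬ κ1 x2 b) : False := by
  have F := fun {i} (hi : i ∈ S) => h.facts hrow hκ hi
  have G := fun {j} (hj : j ∈ U1) => h1.facts hcol hκ1.tr hj
  by_cases hA : ∃ i ∈ S, i ∉ S1
  · obtain ⟨i, hiS, hiS1⟩ := hA
    -- `U ᶜ ⊆ U1`
    have k1 : Uᶜ ⊆ U1 := by
      have h2 : U1 ∪ Uᶜ ⊆ univ.filter (fun j => r i j) := by
        intro j hj
        rw [mem_filter]
        refine ⟨mem_univ _, ?_⟩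
        rcases mem_union.1 hj with h3 | h3
        · exact (G h3).1 i hiS1
        · exact (F hiS).1 j (mem_compl.1 h3)
      have h3 := card_le_card h2
      rw [(F hiS).2.2] at h3
      have h4 : U1 = U1 ∪ Uᶜ := eq_of_subset_of_card_le subset_union_left (by rw [h1.cS]; exact h3)
      rw [h4]
      exact subset_union_right
    have cUc : Uᶜ.card = 2 := by rw [card_compl, Fintype.card_fin, h.cU]
    have cSc : S1ᶜ.card = 2 := by rw [card_compl, Fintype.card_fin, h1.cU]
    obtain ⟨j, hj⟩ := card_pos.1 (show 0 < Uᶜ.card by omega)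
    have k2 : S1ᶜ ⊆ S := by
      have h2 : S ∪ S1ᶜ ⊆ univ.filter (fun i => r i j) := by
        intro i' hi'
        rw [mem_filter]
        refine ⟨mem_univ _, ?_⟩
        rcases mem_union.1 hi' with h3 | h3
        · exact (F h3).1 j (mem_compl.1 hj)
        · exact (G (k1 hj)).1 i' (mem_compl.1 h3)
      have h3 := card_le_card h2
      rw [(G (k1 hj)).2.2] at h3
      have h4 : S = S ∪ S1ᶜ := eq_of_subset_of_card_le subset_union_left (by rw [h.cS]; exact h3)
      rw [h4]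
      exact subset_union_right
    obtain ⟨b, hbU1, hbU⟩ : ∃ b ∈ U1, b ∉ Uᶜ := by
      by_contra hcon
      push Not at hcon
      have := card_le_card (show U1 ⊆ Uᶜ from hcon)
      rw [h1.cS] at this
      omega
    rw [mem_compl, not_not] at hbU
    obtain ⟨y1, y2, hy, hyy⟩ := card_eq_two.1 cSc
    have m1 : y1 ∈ S1ᶜ := by rw [hyy]; simp
    have m2 : y2 ∈ S1ᶜ := by rw [hyy]; simp
    have e1 : κ y1 b := h.cut y1 (k2 m1) b hbU ((G hbU1).1 y1 (mem_compl.1 m1))
    have e2 : κ y2 b := h.cut y2 (k2 m2) b hbU ((G hbU1).1 y2 (mem_compl.1 m2))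
    exact hy (hκ.col y1 y2 b e1 e2)
  · push Not at hA
    have k1 : ∀ j ∈ U1, j ∈ U := by
      intro j hj
      by_contra hjU
      have h2 : S ∪ S1ᶜ ⊆ univ.filter (fun i => r i j) := by
        intro i' hi'
        rw [mem_filter]
        refine ⟨mem_univ _, ?_⟩
        rcases mem_union.1 hi' with h3 | h3
        · exact (F h3).1 j hjU
        · exact (G hj).1 i' (mem_compl.1 h3)
      have h3 := card_le_card h2
      rw [(G hj).2.2, card_union_of_disjoint, h.cS, card_compl, Fintype.card_fin, h1.cU] at h3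
      · omega
      · rw [disjoint_left]
        intro a ha ha'
        exact (mem_compl.1 ha') (hA a ha)
    -- the rows of the cells of the second matching
    have hch : ∀ j ∈ U1, ∃ i ∈ S1, r i j ∧ κ1 i j := fun j hj => (G hj).2.1
    choose! ρ hρ1 hρ2 hρ3 using hch
    have himg : (U1.image ρ).card = 3 := by
      rw [card_image_of_injOn, h1.cS]
      intro j hj j' hj' he
      have e1 := hρ3 j hj
      have e2 := hρ3 j' hj'
      rw [he] at e1
      exact hκ1.row _ _ _ e1 e2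
    have himg2 : U1.image ρ ⊆ S1 := by
      intro i hi
      obtain ⟨j, hj, rfl⟩ := mem_image.1 hi
      exact hρ1 j hj
    have hmem : x1 ∈ U1.image ρ ∨ x2 ∈ U1.image ρ := by
      by_contra hcon
      push Not at hcon
      have h2 : U1.image ρ ⊆ (S1.erase x1).erase x2 := by
        intro y hy
        rw [mem_erase, mem_erase]
        exact ⟨fun e => hcon.2 (e ▸ hy), fun e => hcon.1 (e ▸ hy), himg2 hy⟩
      have h3 := card_le_card h2
      rw [card_erase_of_mem (mem_erase.2 ⟨hx.symm, hA x2 hx2⟩), card_erase_of_mem (hA x1 hx1), h1.cU, himg] at h3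
      omega
    rcases hmem with hm | hm
    · obtain ⟨j, hj, hje⟩ := mem_image.1 hm
      have e1 := hρ2 j hj
      have e2 := hρ3 j hj
      rw [hje] at e1 e2
      exact hb1 j (h.cut x1 hx1 j (k1 j hj) e1) e2
    · obtain ⟨j, hj, hje⟩ := mem_image.1 hm
      have e1 := hρ2 j hj
      have e2 := hρ3 j hj
      rw [hje] at e1 e2
      exact hb2 j (h.cut x2 hx2 j (k1 j hj) e1) e2

lemma fam_aux {r : Fin 6 → Fin 6 → Prop} (hrow : ∀ i, 3 ≤ (univ.filter (fun j => r i j)).card)
    (hcol : ∀ j, 3 ≤ (univ.filter (fun i => r i j)).card) (K : (Fin 6 → Fin 6 → Prop) → Prop) (hK : ∀ κ, K κ → PM κ)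
    (hav : ∀ i1 j1 i2 j2, ∃ κ, K κ ∧ ¬ κ i1 j1 ∧ ¬ κ i2 j2)
    (hno : ∀ κ, K κ → ¬ ∃ σ : Equiv.Perm (Fin 6), ∀ i, r i (σ i) ∧ ¬ κ i (σ i))
    {κ : Fin 6 → Fin 6 → Prop} (hκ : K κ) {S U : Finset (Fin 6)} (h : CutR r κ S U) : False := by
  obtain ⟨x1, hx1, x2, hx2, hx⟩ := one_lt_card.1 (show 1 < S.card by rw [h.cS]; norm_num)
  obtain ⟨-, ⟨b1, -, -, hb1⟩, -⟩ := h.facts hrow (hK κ hκ) hx1
  obtain ⟨-, ⟨b2, -, -, hb2⟩, -⟩ := h.facts hrow (hK κ hκ) hx2
  obtain ⟨κ1, hκ1, n1, n2⟩ := hav x1 b1 x2 b2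
  have m1 : ∀ b, κ x1 b → ¬ κ1 x1 b := fun b hb => by rw [(hK κ hκ).row _ _ _ hb hb1]; exact n1
  have m2 : ∀ b, κ x2 b → ¬ κ1 x2 b := fun b hb => by rw [(hK κ hκ).row _ _ _ hb hb2]; exact n2
  rcases cut_or hrow hcol (hK κ1 hκ1) (hno κ1 hκ1) with ⟨S1, U1, h1⟩ | ⟨S1, U1, h1⟩
  · exact no_RR hrow hcol (hK κ hκ) (hK κ1 hκ1) h h1 hx1 hx2 hx m1 m2
  · exact no_RC hrow hcol (hK κ hκ) (hK κ1 hκ1) h h1 hx1 hx2 hx m1 m2

/-- the family lemma -/
theorem fam {r : Fin 6 → Fin 6 → Prop} (hrow : ∀ i, 3 ≤ (univ.filter (fun j => r i j)).card)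
    (hcol : ∀ j, 3 ≤ (univ.filter (fun i => r i j)).card) (K : (Fin 6 → Fin 6 → Prop) → Prop) (hK : ∀ κ, K κ → PM κ)
    (hav : ∀ i1 j1 i2 j2, ∃ κ, K κ ∧ ¬ κ i1 j1 ∧ ¬ κ i2 j2) :
    ∃ κ, K κ ∧ ∃ σ : Equiv.Perm (Fin 6), ∀ i, r i (σ i) ∧ ¬ κ i (σ i) := by
  by_contra hcon
  push Not at hcon
  have hno : ∀ κ, K κ → ¬ ∃ σ : Equiv.Perm (Fin 6), ∀ i, r i (σ i) ∧ ¬ κ i (σ i) := by
    intro κ hκ
    push Not
    exact hcon κ hκ
  obtain ⟨κ, hκ, -, -⟩ := hav 0 0 0 0
  rcases cut_or hrow hcol (hK κ hκ) (hno κ hκ) with ⟨S, U, h⟩ | ⟨S, U, h⟩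
  · exact fam_aux hrow hcol K hK hav hno hκ h
  · refine fam_aux (r := fun i j => r j i) hcol hrow (fun κ => K (fun i j => κ j i)) ?_ ?_ ?_ (κ := fun i j => κ j i) hκ h
    · intro κ' h'
      exact (hK _ h').tr
    · intro i1 j1 i2 j2
      obtain ⟨κ', h1, h2, h3⟩ := hav j1 i1 j2 i2
      exact ⟨fun i j => κ' j i, h1, h2, h3⟩
    · rintro κ' h' ⟨σ, hσ⟩
      refine hno _ h' ⟨σ.symm, fun i => ?_⟩
      have := hσ (σ.symm i)
      rw [Equiv.apply_symm_apply] at this
      exact this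

end Pool.Agent.H60.MAD
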