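import Mathlib

/-!
# Rotation lemma

A reflexive relation `r` on `k` points in which every point has at least `m ≥ 2` out-neighbours and at least `m` in-neighbours
(itself included), and a nonempty set `I` of more than `k - 2 m` points.  Then there is a permutation `σ` with `r i (σ i)` for all
`i` which moves a point of `I`.
-/

set_option autoImplicit false

namespace Pool.Agent.H60.MAD

open Finset

variable {α : Type*} [Fintype α] [DecidableEq α]

/-- no arc leaves `X` -/
def Cl (r : α → α → Prop) (X : Finset α) : Prop := ∀ i ∈ X, ∀ j, r i j → j ∈ X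

lemma Cl.inter {r : α → α → Prop} {X Y : Finset α} (hX : Cl r X) (hY : Cl r Y) : Cl r (X ∩ Y) := by
  intro i hi j hij
  rw [mem_inter] at hi ⊢
  exact ⟨hX i hi.1 j hij, hY i hi.2 j hij⟩

/-- A nonempty closed set contains at least `m` points outside `I`. -/
lemma card_out {r : α → α → Prop} [DecidableRel r] {m : ℕ} (hm : 2 ≤ m) (hrow : ∀ i, m ≤ (univ.filter (fun j => r i j)).card)
    {I : Finset α} (hI : ∀ i ∈ I, ∃ B, Cl r B ∧ i ∉ B ∧ ∀ j, r i j → j ≠ i → j ∈ B)
    {Z : Finset α} (hZ : Cl r Z) (hne : Z.Nonempty) : m ≤ (Z \ I).card := by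
  classical
  obtain ⟨X, hX, hmin⟩ := Finset.exists_min_image
    ((Z.powerset).filter (fun X => Cl r X ∧ X.Nonempty)) Finset.card
    ⟨Z, mem_filter.2 ⟨mem_powerset.2 subset_rfl, hZ, hne⟩⟩
  rw [mem_filter, mem_powerset] at hX
  obtain ⟨hXZ, hXc, x, hx⟩ := hX
  have hdis : ∀ i ∈ X, i ∉ I := by
    intro i hi hiI
    obtain ⟨B, hB, hiB, hout⟩ := hI i hiI
    obtain ⟨j, hj, hji⟩ : ∃ j, r i j ∧ j ≠ i := by
      have h1 : 1 < (univ.filter (fun j => r i j)).card := lt_of_lt_of_le (by omega) (hrow i)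
      obtain ⟨j, hj, hji⟩ := Finset.exists_mem_ne h1 i
      exact ⟨j, (mem_filter.1 hj).2, hji⟩
    have h2 : X ∩ B ∈ (Z.powerset).filter (fun X => Cl r X ∧ X.Nonempty) := by
      rw [mem_filter, mem_powerset]
      exact ⟨inter_subset_left.trans hXZ, hXc.inter hB, j, mem_inter.2 ⟨hXc i hi j hj, hout j hj hji⟩⟩
    have h3 := hmin _ h2
    have h4 : X ∩ B = X := Finset.eq_of_subset_of_card_le inter_subset_left h3
    apply hiB
    have : i ∈ X ∩ B := by rw [h4]; exact hi
    exact (mem_inter.1 this).2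
  calc m ≤ (univ.filter (fun j => r x j)).card := hrow x
    _ ≤ (Z \ I).card := by
      apply card_le_card
      intro j hj
      have := hXc x hx j (mem_filter.1 hj).2
      exact mem_sdiff.2 ⟨hXZ this, hdis j this⟩

/-- Hall's theorem for the relation without the loop at `i`. -/
lemma hall_loop {r : α → α → Prop} [DecidableRel r] (hr : ∀ i, r i i) {i : α}
    (h : ¬ ∃ σ : Equiv.Perm α, (∀ j, r j (σ j)) ∧ σ i ≠ i) :
    ∃ A : Finset α, i ∈ A ∧ ∀ x ∈ A, ∀ y, r x y → ¬ (x = i ∧ y = i) → y ∈ A ∧ y ≠ i := by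
  classical
  let N : α → Finset α := fun x => univ.filter (fun y => r x y ∧ ¬ (x = i ∧ y = i))
  have key : ¬ ∀ s : Finset α, s.card ≤ (s.biUnion N).card := by
    intro hall
    obtain ⟨f, hf, hfN⟩ := (Finset.all_card_le_biUnion_card_iff_exists_injective N).1 hall
    apply h
    refine ⟨Equiv.ofBijective f (Finite.injective_iff_bijective.1 hf), ?_, ?_⟩
    · intro j
      exact (mem_filter.1 (hfN j)).2.1
    · intro he
      exact (mem_filter.1 (hfN i)).2.2 ⟨rfl, he⟩
  push Not at key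
  obtain ⟨A, hA⟩ := key
  have hsub : A.erase i ⊆ A.biUnion N := by
    intro x hx
    rw [mem_erase] at hx
    rw [mem_biUnion]
    exact ⟨x, hx.2, mem_filter.2 ⟨mem_univ _, hr x, fun hc => hx.1 hc.1⟩⟩
  have hiA : i ∈ A := by
    by_contra hi
    rw [erase_eq_of_notMem hi] at hsub
    exact absurd (card_le_card hsub) (by omega)
  have heq : A.erase i = A.biUnion N := by
    apply Finset.eq_of_subset_of_card_le hsub
    rw [card_erase_of_mem hiA]
    omega
  refine ⟨A, hiA, ?_⟩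
  intro x hx y hxy hne
  have : y ∈ A.biUnion N := mem_biUnion.2 ⟨x, hx, mem_filter.2 ⟨mem_univ _, hxy, hne⟩⟩
  rw [← heq, mem_erase] at this
  exact ⟨this.2, this.1⟩

theorem rotate {r : α → α → Prop} [DecidableRel r] {m : ℕ} (hm : 2 ≤ m) (hr : ∀ i, r i i)
    (hrow : ∀ i, m ≤ (univ.filter (fun j => r i j)).card) (hcol : ∀ j, m ≤ (univ.filter (fun i => r i j)).card)
    {I : Finset α} (hne : I.Nonempty) (hI : Fintype.card α < I.card + 2 * m) :
    ∃ σ : Equiv.Perm α, (∀ j, r j (σ j)) ∧ ∃ i ∈ I, σ i ≠ i := by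
  classical
  by_contra hcon
  have hall : ∀ i ∈ I, ∃ A : Finset α, i ∈ A ∧ ∀ x ∈ A, ∀ y, r x y → ¬ (x = i ∧ y = i) → y ∈ A ∧ y ≠ i := by
    intro i hi
    apply hall_loop hr
    rintro ⟨σ, h1, h2⟩
    exact hcon ⟨σ, h1, i, hi, h2⟩
  obtain ⟨i0, hi0⟩ := hne
  obtain ⟨A, hiA, hA⟩ := hall i0 hi0
  have hB : Cl r (A.erase i0) := by
    intro x hx y hxy
    rw [mem_erase] at hx ⊢
    exact (hA x hx.2 y hxy (fun hc => hx.1 hc.1)).symm
  have hBne : (A.erase i0).Nonempty := by
    have h1 : 1 < (univ.filter (fun j => r i0 j)).card := lt_of_lt_of_le (by omega) (hrow i0)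
    obtain ⟨j, hj, hji⟩ := Finset.exists_mem_ne h1 i0
    exact ⟨j, mem_erase.2 ⟨hji, (hA i0 hiA j (mem_filter.1 hj).2 (fun hc => hji hc.2)).1⟩⟩
  have h1 := card_out hm hrow (I := I) (fun i hi => by
    obtain ⟨A', hiA', hA'⟩ := hall i hi
    refine ⟨A'.erase i, ?_, by simp, ?_⟩
    · intro x hx y hxy
      rw [mem_erase] at hx ⊢
      exact (hA' x hx.2 y hxy (fun hc => hx.1 hc.1)).symm
    · intro j hj hji
      exact mem_erase.2 ⟨hji, (hA' i hiA' j hj (fun hc => hji hc.2)).1⟩) hB hBne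
  -- the transposed relation
  let r' : α → α → Prop := fun i j => r j i
  have hC : Cl r' Aᶜ := by
    intro x hx y hxy
    rw [mem_compl] at hx ⊢
    intro hy
    by_cases hc : y = i0 ∧ x = i0
    · exact hx (hc.2 ▸ hiA)
    · exact hx (hA y hy x hxy hc).1
  have hCne : (Aᶜ).Nonempty := by
    have h1 : 1 < (univ.filter (fun j => r j i0)).card := lt_of_lt_of_le (by omega) (hcol i0)
    obtain ⟨j, hj, hji⟩ := Finset.exists_mem_ne h1 i0
    refine ⟨j, mem_compl.2 fun hjA => ?_⟩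
    exact (hA j hjA i0 (mem_filter.1 hj).2 (fun hc => hji hc.1)).2 rfl
  have h2 := card_out (r := r') hm hcol (I := I) (fun i hi => by
    obtain ⟨A', hiA', hA'⟩ := hall i hi
    refine ⟨A'ᶜ, ?_, by simpa using hiA', ?_⟩
    · intro x hx y hxy
      rw [mem_compl] at hx ⊢
      intro hy
      by_cases hc : y = i ∧ x = i
      · exact hx (hc.2 ▸ hiA')
      · exact hx (hA' y hy x hxy hc).1
    · intro j hj hji
      rw [mem_compl]
      intro hjA
      exact (hA' j hjA i hj (fun hc => hji hc.1)).2 rfl) hC hCne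
  have h3 : Disjoint (A.erase i0 \ I) (Aᶜ \ I) := by
    rw [disjoint_left]
    intro x hx hx'
    rw [mem_sdiff] at hx hx'
    exact (mem_compl.1 hx'.1) (mem_of_mem_erase hx.1)
  have h4 : (A.erase i0 \ I) ∪ (Aᶜ \ I) ⊆ Iᶜ := by
    intro x hx
    rw [mem_compl]
    rcases mem_union.1 hx with hx | hx
    · exact (mem_sdiff.1 hx).2
    · exact (mem_sdiff.1 hx).2
  have h5 := card_le_card h4
  rw [card_union_of_disjoint h3, card_compl] at h5
  have h6 : I.card ≤ Fintype.card α := card_le_univ I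
  omega

end Pool.Agent.H60.MAD
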