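import Pool.Agent.H60.MAD.Comp

/-!
# Planar graphs without a four-triangle fan: packings with seven colours
-/

set_option autoImplicit false

namespace Pool.Agent.H60.MAD

open Finset Function
open scoped Classical

variable {V : Type*}

lemma nb_erase_self {G : SimpleGraph V} {W : Finset V} {z : V} : nb G (W.erase z) z = nb G W z := by
  ext u
  rw [mem_nb, mem_nb, mem_erase]
  constructor
  · rintro ⟨⟨-, h1⟩, h2⟩; exact ⟨h1, h2⟩
  · rintro ⟨h1, h2⟩; exact ⟨⟨h2.ne', h1⟩, h2⟩

lemma nb_erase_card {G : SimpleGraph V} {W : Finset V} {z : V} (hz : z ∈ W) {a : V} (ha : a ∈ nb G W z) :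
    (nb G (W.erase z) a).card + 1 = (nb G W a).card := by
  have h1 : nb G (W.erase z) a = (nb G W a).erase z := by
    ext u
    rw [mem_nb, mem_erase, mem_erase, mem_nb]
    tauto
  have h2 : z ∈ nb G W a := mem_nb.2 ⟨hz, (mem_nb.1 ha).2.symm⟩
  rw [h1, card_erase_of_mem h2]
  have : 0 < (nb G W a).card := card_pos.2 ⟨z, h2⟩
  omega

theorem exists_pk7 {G : SimpleGraph V} (hP : IsPlanar G) (hF : FanLE G 3) {L : V → Finset ℕ} (hL : ∀ v, (L v).card = 7) :
    ∀ (n : ℕ) (W : Finset V), W.card = n → ∃ c : V → Fin 7 → ℕ, Pk G L W c := by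
  intro n
  induction n with
  | zero =>
    intro W hW
    rw [card_eq_zero] at hW
    subst hW
    exact ⟨fun _ _ => 0, by simp, by simp, by simp⟩
  | succ n ih =>
    intro W hW
    have hne : W.Nonempty := by rw [← card_pos]; omega
    obtain ⟨z, hz, hzd⟩ := light7 hP hF hne
    obtain ⟨c, hc⟩ := ih (W.erase z) (by rw [card_erase_of_mem hz]; omega)
    have h3 := step (d := 4) (by norm_num) (by norm_num) hL hc (notMem_erase z W) (by
      rw [nb_erase_self]
      rcases hzd with h1 | ⟨h1, a, ha, h2⟩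
      · exact Or.inl h1
      · refine Or.inr ⟨h1, a, ha, ?_⟩
        rw [nb_erase_card hz ha]
        omega)
    rw [insert_erase hz] at h3
    exact h3

end Pool.Agent.H60.MAD
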