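import Pool.Agent.H60.MAD.Seven
import Pool.Agent.H60.MAD.Mat

/-!
# Planar graphs with at most two triangular angles in five consecutive neighbours: packings with six colours
-/

set_option autoImplicit false

namespace Pool.Agent.H60.MAD

open Finset Function
open scoped Classical

variable {V : Type*}

lemma pk_update {k : ℕ} {G : SimpleGraph V} {L : V → Finset ℕ} {W : Finset V} {c : V → Fin k → ℕ} (h : Pk G L W c) {z : V}
    (hz : z ∉ W) {w : Fin k → ℕ} (hw1 : Injective w) (hw2 : ∀ i, w i ∈ L z) (hw3 : ∀ u ∈ nb G W z, ∀ i, c u i ≠ w i) :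
    Pk G L (insert z W) (update c z w) := by
  have hne : ∀ u ∈ W, u ≠ z := fun u hu he => hz (he ▸ hu)
  refine ⟨?_, ?_, ?_⟩
  · intro u hu
    rcases mem_insert.1 hu with h1 | h1
    · rw [h1, update_self]; exact hw1
    · rw [update_of_ne (hne u h1)]; exact h.inj u h1
  · intro u hu i
    rcases mem_insert.1 hu with h1 | h1
    · rw [h1, update_self]; exact hw2 i
    · rw [update_of_ne (hne u h1)]; exact h.mem u h1 i
  · intro u hu v hv huv i
    rcases mem_insert.1 hu with h1 | h1
    · rcases mem_insert.1 hv with h2 | h2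
      · rw [h1, h2] at huv
        exact absurd huv (G.loopless.irrefl _)
      · rw [h1] at huv ⊢
        rw [update_self, update_of_ne (hne v h2)]
        exact (hw3 v (mem_nb.2 ⟨h2, huv⟩) i).symm
    · rcases mem_insert.1 hv with h2 | h2
      · rw [h2] at huv ⊢
        rw [update_self, update_of_ne (hne u h1)]
        exact hw3 u (mem_nb.2 ⟨h1, huv.symm⟩) i
      · rw [update_of_ne (hne u h1), update_of_ne (hne v h2)]
        exact h.prop u h1 v h2 huv i

/-- enumeration of a list of six colours -/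
lemma exists_enum {A : Finset ℕ} (hA : A.card = 6) : ∃ e : Fin 6 → ℕ, Injective e ∧ ∀ i, e i ∈ A :=
  ⟨fun i => A.orderEmbOfFin hA i, (A.orderEmbOfFin hA).injective, fun i => A.orderEmbOfFin_mem hA i⟩

/-- the allowed cells have degrees at least three -/
lemma degs {G : SimpleGraph V} {L : V → Finset ℕ} {W : Finset V} {c : V → Fin 6 → ℕ} (h : Pk G L W c) {z : V}
    (hz : (nb G W z).card ≤ 3) {e : Fin 6 → ℕ} (he : Injective e) :
    (∀ i, 3 ≤ (univ.filter (fun j => ∀ u ∈ nb G W z, c u i ≠ e j)).card) ∧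
    (∀ j, 3 ≤ (univ.filter (fun i => ∀ u ∈ nb G W z, c u i ≠ e j)).card) := by
  constructor
  · intro i
    have h2 : (univ.filter (fun j => ¬ ∀ u ∈ nb G W z, c u i ≠ e j)).card ≤ (nb G W z).card := by
      have hch : ∀ j ∈ univ.filter (fun j => ¬ ∀ u ∈ nb G W z, c u i ≠ e j), ∃ u, u ∈ nb G W z ∧ c u i = e j := by
        intro j hj
        have := (mem_filter.1 hj).2
        push Not at this
        exact this
      have : Nonempty V := ⟨z⟩
      choose! g hg using hch
      apply card_le_card_of_injOn g (fun j hj => (hg j hj).1)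
      intro j hj j' hj' heq
      have e1 := (hg j hj).2
      have e2 := (hg j' hj').2
      rw [← heq, e1] at e2
      exact he e2
    have h3 := card_filter_add_card_filter_not (s := (univ : Finset (Fin 6))) (fun j => ∀ u ∈ nb G W z, c u i ≠ e j)
    rw [card_univ, Fintype.card_fin] at h3
    omega
  · intro j
    have h2 : (univ.filter (fun i => ¬ ∀ u ∈ nb G W z, c u i ≠ e j)).card ≤ (nb G W z).card := by
      have hch : ∀ i ∈ univ.filter (fun i => ¬ ∀ u ∈ nb G W z, c u i ≠ e j), ∃ u, u ∈ nb G W z ∧ c u i = e j := by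
        intro i hi
        have := (mem_filter.1 hi).2
        push Not at this
        exact this
      have : Nonempty V := ⟨z⟩
      choose! g hg using hch
      apply card_le_card_of_injOn g (fun i hi => (hg i hi).1)
      intro i hi i' hi' heq
      have e1 := (hg i hi).2
      have e2 := (hg i' hi').2
      rw [← heq, ← e1] at e2
      exact (h.inj _ (mem_nb.1 (hg i hi).1).1 e2).symm
    have h3 := card_filter_add_card_filter_not (s := (univ : Finset (Fin 6))) (fun i => ∀ u ∈ nb G W z, c u i ≠ e j)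
    rw [card_univ, Fintype.card_fin] at h3
    omega

/-- a vertex with at most three coloured neighbours -/
lemma ext3 {G : SimpleGraph V} {L : V → Finset ℕ} (hL : ∀ v, (L v).card = 6) {W : Finset V} {c : V → Fin 6 → ℕ}
    (h : Pk G L W c) {z : V} (hz : z ∉ W) (hd : (nb G W z).card ≤ 3) : ∃ c' : V → Fin 6 → ℕ, Pk G L (insert z W) c' := by
  obtain ⟨e, he, heL⟩ := exists_enum (hL z)
  obtain ⟨h1, h2⟩ := degs h hd he
  obtain ⟨σ, hσ⟩ := hall_three (r := fun i j => ∀ u ∈ nb G W z, c u i ≠ e j) (fun i => by convert h1 i) (fun j => by convert h2 j)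
  exact ⟨_, pk_update h hz (w := fun i => e (σ i)) (he.comp σ.injective) (fun i => heL _) (fun u hu i => hσ i u hu)⟩

/-- two adjacent vertices with at most three coloured neighbours each -/
lemma ext33 {G : SimpleGraph V} {L : V → Finset ℕ} (hL : ∀ v, (L v).card = 6) {W : Finset V} {c : V → Fin 6 → ℕ}
    (h : Pk G L W c) {z z' : V} (hz : z ∉ W) (hz' : z' ∉ W) (hzz : z ≠ z') (hd : (nb G W z).card ≤ 3)
    (hd' : (nb G W z').card ≤ 3) : ∃ c' : V → Fin 6 → ℕ, Pk G L (insert z' (insert z W)) c' := by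
  obtain ⟨e, he, heL⟩ := exists_enum (hL z)
  obtain ⟨e', he', heL'⟩ := exists_enum (hL z')
  obtain ⟨h1, h2⟩ := degs h hd he
  obtain ⟨h1', h2'⟩ := degs h hd' he'
  have hfam := fam (r := fun i j => ∀ u ∈ nb G W z', c u i ≠ e' j) (fun i => by convert h1' i) (fun j => by convert h2' j)
    (fun κ => ∃ σ : Equiv.Perm (Fin 6), (∀ i, ∀ u ∈ nb G W z, c u i ≠ e (σ i)) ∧ ∀ i j, κ i j ↔ e (σ i) = e' j) ?_ ?_
  · obtain ⟨κ, ⟨σ, hσ, hκ⟩, σ', hσ'⟩ := hfam
    have hp := pk_update h hz (w := fun i => e (σ i)) (he.comp σ.injective) (fun i => heL _) (fun u hu i => hσ i u hu)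
    refine ⟨_, pk_update hp (z := z') (w := fun i => e' (σ' i)) ?_ (he'.comp σ'.injective) (fun i => heL' _) ?_⟩
    · rw [mem_insert]
      rintro (h3 | h3)
      · exact hzz h3.symm
      · exact hz' h3
    · intro u hu i
      rw [mem_nb, mem_insert] at hu
      rcases hu with ⟨h3 | h3, h4⟩
      · rw [h3, update_self]
        intro h5
        exact (hσ' i).2 ((hκ _ _).2 h5)
      · rw [update_of_ne (show u ≠ z from fun h5 => hz (h5 ▸ h3))]
        exact (hσ' i).1 u (mem_nb.2 ⟨h3, h4⟩)
  · rintro κ ⟨σ, hσ, hκ⟩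
    refine ⟨fun i j j' h3 h4 => ?_, fun i i' j h3 h4 => ?_⟩
    · rw [hκ] at h3 h4
      exact he' (h3.symm.trans h4)
    · rw [hκ] at h3 h4
      exact σ.injective (he (h3.trans h4.symm))
  · intro i1 j1 i2 j2
    have hinv : ∀ x : ℕ, ∃ y : Fin 6, ∀ j, e j = x → j = y := by
      intro x
      by_cases hx : ∃ y, e y = x
      · obtain ⟨y, hy⟩ := hx
        exact ⟨y, fun j hj => he (hj.trans hy.symm)⟩
      · exact ⟨0, fun j hj => absurd ⟨j, hj⟩ hx⟩
    obtain ⟨y1, hy1⟩ := hinv (e' j1)
    obtain ⟨y2, hy2⟩ := hinv (e' j2)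
    obtain ⟨σ, hσ, hs1, hs2⟩ := hall_two (r := fun i j => ∀ u ∈ nb G W z, c u i ≠ e j) (fun i => by convert h1 i)
      (fun j => by convert h2 j) i1 y1 i2 y2
    exact ⟨fun i j => e (σ i) = e' j, ⟨σ, hσ, fun i j => Iff.rfl⟩, fun h3 => hs1 (hy1 _ h3), fun h3 => hs2 (hy2 _ h3)⟩

theorem exists_pk6 {G : SimpleGraph V} (hP : IsPlanar G) (hF : FanLE G 2) {L : V → Finset ℕ} (hL : ∀ v, (L v).card = 6) :
    ∀ (n : ℕ) (W : Finset V), W.card ≤ n → ∃ c : V → Fin 6 → ℕ, Pk G L W c := by
  intro n
  induction n with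
  | zero =>
    intro W hW
    have hW : W = ∅ := card_eq_zero.1 (by omega)
    subst hW
    exact ⟨fun _ _ => 0, by simp, by simp, by simp⟩
  | succ n ih =>
    intro W hW
    rcases W.eq_empty_or_nonempty with hne | hne
    · subst hne
      exact ⟨fun _ _ => 0, by simp, by simp, by simp⟩
    obtain ⟨z, hz, hzd⟩ := light6 hP hF hne
    rcases hzd with h1 | ⟨h1, a, ha, h2⟩
    · obtain ⟨c, hc⟩ := ih (W.erase z) (by rw [card_erase_of_mem hz]; omega)
      have h3 := ext3 hL hc (notMem_erase z W) (by rw [nb_erase_self]; omega)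
      rw [insert_erase hz] at h3
      exact h3
    · have haW := (mem_nb.1 ha).1
      have hadj := (mem_nb.1 ha).2
      have hza : z ≠ a := hadj.ne
      have hzn : z ∈ nb G W a := mem_nb.2 ⟨hz, hadj.symm⟩
      obtain ⟨c, hc⟩ := ih ((W.erase a).erase z) (by
        rw [card_erase_of_mem (mem_erase.2 ⟨hza, hz⟩), card_erase_of_mem haW]
        omega)
      have e1 : (nb G ((W.erase a).erase z) z).card ≤ 3 := by
        rw [nb_erase_self]
        have := nb_erase_card haW hzn
        omega
      have e2 : (nb G ((W.erase a).erase z) a).card ≤ 3 := by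
        rw [erase_right_comm, nb_erase_self]
        have := nb_erase_card hz ha
        omega
      have h3 := ext33 hL hc (notMem_erase z _) (by rw [erase_right_comm]; exact notMem_erase a _) hza e1 e2
      rw [insert_erase (mem_erase.2 ⟨hza, hz⟩), insert_erase haW] at h3
      exact h3

end Pool.Agent.H60.MAD
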